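import Pool.Agent.Run7.h493.PS.Ext
import Pool.Agent.N302.SP.Same

/-!
# Products of linear forms
-/

set_option autoImplicit false

namespace Run7.h493.PS

open MvPolynomial

variable {M δ : ℕ}

theorem lf_ne {a : Fin (M + 1) → ℂ} (ha : a ≠ 0) : lf a ≠ 0 := by
  classical
  intro h0
  apply ha
  funext i
  have h1 := congrArg (coeff (Finsupp.single i 1)) h0
  unfold lf at h1
  rw [coeff_sum, coeff_zero] at h1
  simp only [coeff_C_mul, coeff_X] at h1
  rw [Finset.sum_eq_single i] at h1
  · simpa using h1
  · intro j _ hj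
    rw [if_neg, mul_zero]
    intro h2
    exact hj (Finsupp.single_left_injective one_ne_zero h2)
  · intro h2; exact absurd (Finset.mem_univ _) h2

theorem lf_inj {a b : Fin (M + 1) → ℂ} (h : lf a = lf b) : a = b := by
  by_contra hne
  refine lf_ne (sub_ne_zero.2 hne) ?_
  have h1 : lf (a - b) = lf a - lf b := by
    unfold lf
    rw [← Finset.sum_sub_distrib]
    refine Finset.sum_congr rfl fun i _ => ?_
    rw [Pi.sub_apply, C_sub, sub_mul]
  rw [h1, h, sub_self]

theorem lf_smul (c : ℂ) (a : Fin (M + 1) → ℂ) : lf (c • a) = C c * lf a := by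
  unfold lf
  rw [Finset.mul_sum]
  refine Finset.sum_congr rfl fun i _ => ?_
  rw [Pi.smul_apply, smul_eq_mul, C_mul, mul_assoc]

theorem lf_prime {a : Fin (M + 1) → ℂ} (ha : a ≠ 0) : Prime (lf a) := by
  have h1 : (lf a).totalDegree = 1 := (lf_hom a).totalDegree (lf_ne ha)
  have h2 : Irreducible (lf a) := by
    refine irreducible_of_totalDegree_eq_one h1 fun x hx => ?_
    obtain ⟨α, hα⟩ := exists_coeff_ne_zero (lf_ne ha)
    refine isUnit_iff_ne_zero.2 ?_
    rintro rfl
    exact hα (zero_dvd_iff.1 (hx α))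
  exact h2.prime

/-- the linear forms of nonproportional vectors do not divide each other -/
theorem lf_dvd {a b : Fin (M + 1) → ℂ} (ha : a ≠ 0) (hb : b ≠ 0) (h : lf a ∣ lf b) :
    ∃ c : ℂ, c ≠ 0 ∧ b = c • a := by
  have h1 : Associated (lf a) (lf b) := (lf_prime ha).irreducible.associated_of_dvd
    (lf_prime hb).irreducible h
  obtain ⟨u, hu⟩ := h1
  obtain ⟨c, hc, hcu⟩ := MvPolynomial.isUnit_iff_eq_C_of_isReduced.1 u.isUnit
  refine ⟨c, hc.ne_zero, ?_⟩
  apply lf_inj
  rw [lf_smul, ← hcu, ← hu, mul_comm]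

/-- points with proportional products of linear forms are the same up to the order -/
theorem perm_of_chow {x y : Fin δ → Fin (M + 1) → ℂ} (hx : ∀ l, x l ≠ 0) (hy : ∀ l, y l ≠ 0)
    {c : ℂ} (h : chow x = c • chow y) :
    ∃ s : Equiv.Perm (Fin δ), ∀ l, ∃ c' : ℂ, x l = c' • y (s l) := by
  classical
  have hc : c ≠ 0 := by
    rintro rfl
    rw [zero_smul] at h
    exact chow_ne hx h
  obtain ⟨s, hs⟩ := Pool.Agent.N302.SP.perm_of_card
    (fun l => Projectivization.mk ℂ (x l) (hx l)) (fun l => Projectivization.mk ℂ (y l) (hy l)) (by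
      intro v
      obtain ⟨a, ha, hav⟩ : ∃ (a : Fin (M + 1) → ℂ) (ha : a ≠ 0), Projectivization.mk ℂ a ha = v :=
        ⟨v.rep, v.rep_nonzero, v.mk_rep⟩
      have key : ∀ z : Fin δ → Fin (M + 1) → ℂ, ∀ hz : ∀ l, z l ≠ 0, emultiplicity (lf a) (chow z) =
          ((Finset.univ.filter fun l => Projectivization.mk ℂ (z l) (hz l) = v).card : ℕ∞) := by
        intro z hz
        have h1 : chow z = ∏ l, lf (z l) := rfl
        rw [h1, Finset.emultiplicity_prod (lf_prime ha), Finset.card_filter, Nat.cast_sum]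
        refine Finset.sum_congr rfl fun l _ => ?_
        by_cases hl : Projectivization.mk ℂ (z l) (hz l) = v
        · rw [if_pos hl, Nat.cast_one]
          rw [← hav, Projectivization.mk_eq_mk_iff'] at hl
          obtain ⟨b, hb⟩ := hl
          have hb0 : b ≠ 0 := by
            rintro rfl
            rw [zero_smul] at hb
            exact hz l hb.symm
          rw [← hb, lf_smul, emultiplicity_mul (lf_prime ha),
            (FiniteMultiplicity.of_not_isUnit (lf_prime ha).not_isUnit
              (lf_prime ha).ne_zero).emultiplicity_self]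
          have h2 : emultiplicity (lf a) (C b : MvPolynomial (Fin (M + 1)) ℂ) = 0 := by
            rw [emultiplicity_eq_zero]
            intro hdvd
            exact (lf_prime ha).not_isUnit (isUnit_of_dvd_unit hdvd
              ((isUnit_iff_ne_zero.2 hb0).map C))
          rw [h2, zero_add]
        · rw [if_neg hl, Nat.cast_zero, emultiplicity_eq_zero]
          intro hdvd
          obtain ⟨b, -, hb⟩ := lf_dvd ha (hz l) hdvd
          apply hl
          rw [← hav, Projectivization.mk_eq_mk_iff']
          exact ⟨b, hb.symm⟩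
      have h1 := key x hx
      rw [h, smul_eq_C_mul, emultiplicity_mul (lf_prime ha)] at h1
      have h2 : emultiplicity (lf a) (C c : MvPolynomial (Fin (M + 1)) ℂ) = 0 := by
        rw [emultiplicity_eq_zero]
        intro hdvd
        exact (lf_prime ha).not_isUnit (isUnit_of_dvd_unit hdvd ((isUnit_iff_ne_zero.2 hc).map C))
      rw [h2, zero_add, key y hy] at h1
      exact_mod_cast h1.symm)
  refine ⟨s, fun l => ?_⟩
  have h1 := hs l
  rw [Projectivization.mk_eq_mk_iff'] at h1
  obtain ⟨c', hc'⟩ := h1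
  exact ⟨c', hc'.symm⟩

end Run7.h493.PS
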