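import Pool.Agent.Run7.h493.PS.Sym
import Pool.Agent.NH29.GH.Stbd
import Pool.Agent.NH8.GD.Stc
import Pool.Agent.NH8.GD.Rk
import Pool.Agent.NH29.GN.Der
import Pool.Agent.NH29.GN.Alg
import Pool.Agent.NH29.GN.Rel
import Pool.Agent.NH29.GN.Lin

/-!
# Multivalued maps from the punctured disc: the tuples over the field of germs
-/

set_option autoImplicit false

namespace Run7.h493.PS

open Filter Topology Metric Set MvPolynomial
open Pool.Agent.W603.BP
open Pool.Agent.NH29.GN (Idx Mon fv val NoZero)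
open Pool.Agent.NH8.GD (Bad pv qn)

variable {M q δ : ℕ} {d : Fin q → ℕ} {t : Idx M d → ℂ → ℂ} {f : ℂ → Fin δ → Fin (M + 1) → ℂ}

/-- the class of a meromorphic function -/
noncomputable def mK (g : ℂ → ℂ) (hg : MeromorphicOn g (ball 0 1)) : KK :=
  algebraMap K₀ KK ⟨cl g, g, hg, rfl⟩

theorem coe_mK (g : ℂ → ℂ) (hg : MeromorphicOn g (ball 0 1)) :
    algebraMap KK LL (mK g hg) = cl g := rfl

/-- the constants -/
noncomputable def cK : ℂ →+* KK where
  toFun a := mK (fun _ => a) (MeromorphicOn.const a)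
  map_one' := by
    apply (algebraMap KK LL).injective
    rw [map_one]
    exact map_one cst
  map_mul' a b := by
    apply (algebraMap KK LL).injective
    rw [map_mul]
    exact map_mul cst a b
  map_zero' := by
    apply (algebraMap KK LL).injective
    rw [map_zero]
    exact map_zero cst
  map_add' a b := by
    apply (algebraMap KK LL).injective
    rw [map_add]
    exact map_add cst a b

theorem coe_cK (a : ℂ) : algebraMap KK LL (cK a) = cst a := rfl

/-- the coefficients -/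
noncomputable def tK (h : ∀ s, AnalyticOnNhd ℂ (t s) (ball 0 1)) (s : Idx M d) : KK :=
  mK (t s) fun z hz => (h s z hz).meromorphicAt

/-- the points -/
noncomputable def xL (f : ℂ → Fin δ → Fin (M + 1) → ℂ) (l : Fin δ) (i : Fin (M + 1)) : LL :=
  cl fun z => f z l i

theorem cl_val (l : Fin δ) (β : Fin (M + 1) →₀ ℕ) :
    val (xL f l) β = cl (fun z => val (f z l) β) := by
  unfold val xL
  rw [cl_prod]
  exact Finset.prod_congr rfl fun i _ => (cl_pow _ _).symm

theorem cl_fv (h : ∀ s, AnalyticOnNhd ℂ (t s) (ball 0 1)) (l : Fin δ) (b : Fin q) :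
    fv (tK h) (xL f l) b = cl (fun z => fv (fun s => t s z) (f z l) b) := by
  unfold fv
  rw [cl_sum]
  refine Finset.sum_congr rfl fun β _ => ?_
  rw [cl_val]
  have h1 : algebraMap KK LL (tK h ⟨b, β⟩) = cl (t ⟨b, β⟩) := rfl
  rw [h1, ← cl_mul]
  rfl

theorem PB_mem_UU : ∀ᶠ z in (UU : Filter ℂ), z ∈ PB 1 := by
  have h1 : ∀ᶠ z in 𝓝 (1 / 2 : ℂ), z ∈ PB 1 := (PB_open 1).mem_nhds half_mem
  exact (h1.filter_mono nhdsWithin_le_nhds).filter_mono UU_le

theorem cl_qn (h : ∀ s, AnalyticOnNhd ℂ (t s) (ball 0 1)) (b₀ b : Fin q) :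
    qn (tK h) (xL f) b₀ b = cl (wf t f b₀ b) := by
  unfold qn pv wf
  rw [cl_prod]
  simp only [cl_fv, cl_div, cl_pow]
  rw [Finset.prod_div_distrib, Finset.prod_pow, Finset.prod_pow]

/-- all points are constant -/
def Cst (f : ℂ → Fin δ → Fin (M + 1) → ℂ) : Prop :=
  ∀ l, ∃ (c : LL) (y : Fin (M + 1) → KK), xL f l = fun i => c * algebraMap KK LL (y i)

/-- there are no bad tuples for general coefficients -/
def NoBad (k : Type) [Field k] (M q δ : ℕ) (V : Set (MvPolynomial (Fin (M + 1)) k))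
    (d : Fin q → ℕ) (Φ : MvPolynomial (Idx M d) k) : Prop :=
  ∀ (K L : Type) [Field K] [Field L] [Algebra k K] [Algebra K L] [IsAlgClosed K]
    (t : Idx M d → K), aeval t Φ ≠ 0 → ∀ x : Fin δ → Fin (M + 1) → L, ¬ Bad k K L V t x

/-- general coefficients -/
theorem exists_noBad (k : Type) [Field k] [CharZero k] {M n q δ : ℕ}
    {V : Set (MvPolynomial (Fin (M + 1)) k)} (hV : ∀ H ∈ V, ∃ e, H.IsHomogeneous e)
    {ℓ : Fin (n + 1) → MvPolynomial (Fin (M + 1)) k} (hℓ : ∀ j, (ℓ j).IsHomogeneous 1)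
    (hN : NoZero V ℓ) {d : Fin q → ℕ} (hd : ∀ i, 1 ≤ d i) (hq : n * δ + 2 ≤ q)
    (hnum : ∀ b, δ * (q - 1) < (q - n * δ - 1) * (d b + 2 - δ)) :
    ∃ Φ : MvPolynomial (Idx M d) k, Φ ≠ 0 ∧ NoBad k M q δ V d Φ := by
  by_contra hcon
  push Not at hcon
  obtain ⟨K', L', _, _, _, _, _, t, x, ht, hx⟩ := Pool.Agent.NH29.GH.stbd k M q δ V d
    (fun Q hQ => by
      have h1 := hcon Q hQ
      unfold NoBad at h1
      push Not at h1
      obtain ⟨K, L, i1, i2, i3, i4, i5, t, h2, x, h3⟩ := h1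
      exact ⟨K, L, i1, i2, i3, i4, i5, t, x, h2, h3⟩)
  exact Pool.Agent.NH8.GD.stc Pool.Agent.NH29.GN.der Pool.Agent.NH29.GN.alg
    Pool.Agent.NH29.GN.rel Pool.Agent.NH29.GN.lin Pool.Agent.NH8.GD.rk k K' L' M n q δ V hV ℓ hℓ hN
    d hd hq hnum t ht x hx

theorem cl_ne_of_ne {h : ℂ → ℂ} (hh : ∀ z ∈ PB 1, h z ≠ 0) : cl h ≠ 0 := by
  intro h0
  obtain ⟨z, h1, h2⟩ := ((cl_eq_zero.1 h0).and PB_mem_UU).exists
  exact hh z h2 h1

/-- a holomorphic map is constant over the algebraic closure of the field of meromorphic functions -/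
theorem cst_of {k : Type} [Field k] [Algebra k ℂ] {V : Set (MvPolynomial (Fin (M + 1)) k)}
    {Φ : MvPolynomial (Idx M d) k} (hΦ : NoBad k M q δ V d Φ) (h : Hol t f)
    (hV : ∀ z ∈ PB 1, ∀ l, ∀ H ∈ V, aeval (f z l) H = 0)
    (ht : ∃ z ∈ ball (0 : ℂ) 1, aeval (fun s => t s z) Φ ≠ 0) : Cst f := by
  classical
  by_contra hnc
  let _ : Algebra k KK := (cK.comp (algebraMap k ℂ)).toAlgebra
  have hal : ∀ a : k, algebraMap KK LL (algebraMap k KK a) = cst (algebraMap k ℂ a) := fun _ => rfl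
  have han : ∀ P : MvPolynomial (Idx M d) k,
      AnalyticOnNhd ℂ (fun z => aeval (fun s => t s z) P) (ball 0 1) := by
    intro P z hz
    induction P using MvPolynomial.induction_on with
    | C a => simp only [algHom_C]; exact analyticAt_const
    | add P Q hP hQ => simp only [map_add]; exact hP.fun_add hQ
    | mul_X P s hP => simp only [map_mul, aeval_X]; exact hP.fun_mul (h.an s z hz)
  have hcl : ∀ P : MvPolynomial (Idx M d) k,
      algebraMap KK LL (aeval (tK h.an) P) = cl (fun z => aeval (fun s => t s z) P) := by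
    intro P
    induction P using MvPolynomial.induction_on with
    | C a =>
      rw [algHom_C, hal, cst_apply]
      simp only [algHom_C]
    | add P Q hP hQ =>
      simp only [map_add]
      rw [hP, hQ, ← map_add]
      rfl
    | mul_X P s hP =>
      simp only [map_mul, aeval_X]
      rw [hP, cl_mul]
      rfl
  refine hΦ KK LL (tK h.an) ?_ (xL f) ⟨?_, ?_, ?_, hnc, ?_⟩
  · intro h0
    obtain ⟨z, hz, hz0⟩ := ht
    apply hz0
    have h1 : cl (fun z => aeval (fun s => t s z) Φ) = 0 := by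
      rw [← hcl, h0, map_zero]
    have h2 : ∃ᶠ z in 𝓝[≠] (1 / 2 : ℂ), aeval (fun s => t s z) Φ = 0 := by
      intro hcon
      obtain ⟨z, h3, h4⟩ := ((cl_eq_zero.1 h1).and (hcon.filter_mono UU_le)).exists
      exact h4 h3
    exact (han Φ).eqOn_zero_of_preconnected_of_frequently_eq_zero
      (convex_ball (0 : ℂ) 1).isPreconnected (PB_sub_ball half_mem) h2 hz
  · intro l H hH
    have h1 : ∀ P : MvPolynomial (Fin (M + 1)) k,
        eval₂ ((algebraMap KK LL).comp (algebraMap k KK)) (xL f l) P =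
        cl (fun z => aeval (f z l) P) := by
      intro P
      induction P using MvPolynomial.induction_on with
      | C a =>
        rw [eval₂_C, RingHom.comp_apply, hal, cst_apply]
        simp only [algHom_C]
      | add P Q hP hQ =>
        simp only [eval₂_add, map_add]
        rw [hP, hQ, ← map_add]
        rfl
      | mul_X P s hP =>
        simp only [eval₂_mul, eval₂_X, map_mul, aeval_X]
        rw [hP, cl_mul]
        rfl
    rw [h1, cl_eq_zero]
    filter_upwards [PB_mem_UU] with z hz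
    exact hV z hz l H hH
  · intro l b
    rw [cl_fv]
    exact cl_ne_of_ne fun z hz => h.off z hz l b
  · intro l h0
    have h1 : ∀ᶠ z in (UU : Filter ℂ), ∀ i, f z l i = 0 := by
      rw [eventually_all]
      intro i
      exact cl_eq_zero.1 (congrFun h0 i)
    obtain ⟨z, h2, h3⟩ := (h1.and PB_mem_UU).exists
    exact h.ne z h3 l (funext h2)
  · intro b₀
    exact ind_units (fun b => wf t f b₀ b) (fun b => h.wf_an b₀ b) (fun b z hz => h.wf_ne b₀ b hz) _
      fun b => cl_qn h.an b₀ b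

end Run7.h493.PS
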