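import Pool.Agent.Run7.h493.PS.Core
import Pool.Agent.W603.BP.Extn

/-!
# Extension of the multivalued maps
-/

set_option autoImplicit false

namespace Run7.h493.PS

open Filter Topology Metric Set MvPolynomial
open Pool.Agent.W603.BP
open Pool.Agent.NH29.GN (Idx Mon fv val NoZero)

variable {M q δ : ℕ} {d : Fin q → ℕ} {t : Idx M d → ℂ → ℂ} {f : ℂ → Fin δ → Fin (M + 1) → ℂ}

theorem val_smul' {L : Type} [Field L] (c : L) (x : Fin (M + 1) → L) (α : Fin (M + 1) →₀ ℕ) :
    val (fun i => c * x i) α = c ^ α.degree * val x α := by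
  unfold val
  simp only [mul_pow]
  rw [Finset.prod_mul_distrib, Finset.prod_pow_eq_pow_sum]
  congr 1
  rw [Finsupp.degree_eq_sum]

theorem fv_smul' {K L : Type} [Field K] [Field L] [Algebra K L] (t : Idx M d → K) (c : L)
    (x : Fin (M + 1) → L) (b : Fin q) : fv t (fun i => c * x i) b = c ^ d b * fv t x b := by
  unfold fv
  rw [Finset.mul_sum]
  refine Finset.sum_congr rfl fun β _ => ?_
  rw [val_smul', β.2]
  ring

/-- the values of regular functions at constant points -/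
theorem ratio_mem (hC : Cst f) (h : Hol t f) {k : ℕ} {α : Fin (M + 1) →₀ ℕ}
    (hα : α.degree = k * ∑ b, d b) (l : Fin δ) :
    cl (fun z => val (f z l) α / Dl t f z l ^ k) ∈ KK := by
  obtain ⟨c, y, hy⟩ := hC l
  have hc : c ≠ 0 := by
    intro h0
    have h1 : ∀ᶠ z in (UU : Filter ℂ), ∀ i, f z l i = 0 := by
      rw [eventually_all]
      intro i
      apply cl_eq_zero.1
      have h2 : xL f l i = 0 := by
        rw [hy, h0]
        exact zero_mul _
      exact h2
    obtain ⟨z, h2, h3⟩ := (h1.and PB_mem_UU).exists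
    exact h.ne z h3 l (funext h2)
  have h1 : cl (fun z => val (f z l) α / Dl t f z l ^ k) =
      val (xL f l) α / (∏ b, fv (tK h.an) (xL f l) b) ^ k := by
    rw [cl_div, cl_pow, cl_val]
    congr 2
    unfold Dl
    rw [cl_prod]
    exact Finset.prod_congr rfl fun b _ => (cl_fv h.an l b).symm
  have h2 : ∀ b, fv (tK h.an) (xL f l) b =
      c ^ d b * fv (tK h.an) (fun i => algebraMap KK LL (y i)) b := fun b => by
    rw [hy, fv_smul']
  have h3 : ∀ b, fv (K := KK) (L := LL) (tK h.an) (fun i => algebraMap KK LL (y i)) b =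
      algebraMap KK LL (fv (K := KK) (L := KK) (tK h.an) y b) := by
    intro b
    unfold fv
    rw [map_sum]
    refine Finset.sum_congr rfl fun β _ => ?_
    rw [map_mul]
    unfold val
    rw [map_prod]
    simp only [map_pow]
    rfl
  have h4 : val (xL f l) α = c ^ (k * ∑ b, d b) * algebraMap KK LL (val y α) := by
    rw [hy, val_smul', hα]
    unfold val
    rw [map_prod]
    simp only [map_pow]
  rw [h1, h4, Finset.prod_congr rfl fun b _ => h2 b, Finset.prod_mul_distrib,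
    Finset.prod_pow_eq_pow_sum, Finset.prod_congr rfl fun b _ => h3 b, mul_pow, ← pow_mul,
    mul_comm (∑ b, d b) k, mul_div_mul_left _ _ (pow_ne_zero _ hc), ← map_prod, ← map_pow, ← map_div₀]
  exact (val y α / (∏ b, fv (K := KK) (L := KK) (tK h.an) y b) ^ k).2

/-- the values of regular functions at constant points -/
theorem ratio_mem' (hC : Cst f) (h : Hol t f) {k : ℕ} {G : MvPolynomial (Fin (M + 1)) ℂ}
    (hG : G.IsHomogeneous (k * ∑ b, d b)) (l : Fin δ) :
    cl (fun z => eval (f z l) G / Dl t f z l ^ k) ∈ KK := by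
  have h1 : (fun z => eval (f z l) G / Dl t f z l ^ k) = fun z => ∑ α ∈ G.support,
      coeff α G * (val (f z l) α / Dl t f z l ^ k) := by
    funext z
    rw [eval_eq', Finset.sum_div]
    refine Finset.sum_congr rfl fun α _ => ?_
    rw [mul_div_assoc]
    rfl
  rw [h1, cl_sum]
  refine sum_mem fun α hα => ?_
  rw [cl_mul (fun _ => coeff α G)]
  refine mul_mem ?_ (ratio_mem hC h ?_ l)
  · exact (cK (coeff α G)).2
  · by_contra hne
    exact (mem_support_iff.1 hα) (hG.coeff_eq_zero hne)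

/-- the product of the linear forms of the points -/
noncomputable def chow (x : Fin δ → Fin (M + 1) → ℂ) : MvPolynomial (Fin (M + 1)) ℂ :=
  ∏ l, ∑ i, C (x l i) * X i

/-- the map extends to the origin -/
def ExtChow (f : ℂ → Fin δ → Fin (M + 1) → ℂ) : Prop :=
  ∃ r : ℝ, 0 < r ∧ ∃ P : ℂ → MvPolynomial (Fin (M + 1)) ℂ,
    (∀ α, DifferentiableOn ℂ (fun z => coeff α (P z)) (ball 0 r)) ∧
    (∀ z ∈ ball (0 : ℂ) r, P z ≠ 0) ∧
    ∀ z ∈ ball (0 : ℂ) r \ {0}, ∃ c : ℂ, chow (f z) = c • P z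

theorem chow_ne {x : Fin δ → Fin (M + 1) → ℂ} (hx : ∀ l, x l ≠ 0) : chow x ≠ 0 := by
  classical
  refine Finset.prod_ne_zero_iff.2 fun l _ h0 => hx l ?_
  funext i
  have h1 := congrArg (coeff (Finsupp.single i 1)) h0
  rw [coeff_sum, coeff_zero] at h1
  simp only [coeff_C_mul, coeff_X] at h1
  rw [Finset.sum_eq_single i] at h1
  · simpa using h1
  · intro j _ hj
    rw [if_neg, mul_zero]
    intro h2
    exact hj (Finsupp.single_left_injective one_ne_zero h2)
  · intro h2; exact absurd (Finset.mem_univ _) h2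

/-- the linear form -/
noncomputable def lf (a : Fin (M + 1) → ℂ) : MvPolynomial (Fin (M + 1)) ℂ := ∑ i, C (a i) * X i

theorem lf_hom (a : Fin (M + 1) → ℂ) : (lf a).IsHomogeneous 1 := by
  refine IsHomogeneous.sum _ _ _ fun i _ => ?_
  have h1 := (isHomogeneous_C (Fin (M + 1)) (a i)).mul (isHomogeneous_X ℂ i)
  rwa [zero_add] at h1

theorem eval_lf (a x : Fin (M + 1) → ℂ) : eval x (lf a) = ∑ i, a i * x i := by
  unfold lf
  rw [map_sum]
  exact Finset.sum_congr rfl fun i _ => by rw [map_mul, eval_C, eval_X]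

theorem eval_chow (x : Fin δ → Fin (M + 1) → ℂ) (a : Fin (M + 1) → ℂ) :
    eval a (chow x) = ∏ l, eval (x l) (lf a) := by
  unfold chow
  rw [map_prod]
  refine Finset.prod_congr rfl fun l _ => ?_
  rw [eval_lf, map_sum]
  exact Finset.sum_congr rfl fun i _ => by rw [map_mul, eval_C, eval_X, mul_comm]

theorem exists_lf {x : Fin δ → Fin (M + 1) → ℂ} (hx : ∀ l, x l ≠ 0) :
    ∃ a : Fin (M + 1) → ℂ, ∀ l, eval (x l) (lf a) ≠ 0 := by
  by_contra hcon
  push Not at hcon
  apply chow_ne hx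
  apply MvPolynomial.funext
  intro a
  obtain ⟨l, hl⟩ := hcon a
  rw [eval_chow, map_zero]
  exact Finset.prod_eq_zero (Finset.mem_univ l) hl

/-- normalised coordinates -/
noncomputable def hc (t : Idx M d → ℂ → ℂ) (f : ℂ → Fin δ → Fin (M + 1) → ℂ) (a : Fin (M + 1) → ℂ)
    (l : Fin δ) (i : Fin (M + 1)) (z : ℂ) : ℂ :=
  f z l i * eval (f z l) (lf a) ^ (∑ b, d b - 1) / Dl t f z l

/-- the normalised product of the linear forms -/
noncomputable def RR (t : Idx M d → ℂ → ℂ) (f : ℂ → Fin δ → Fin (M + 1) → ℂ) (a : Fin (M + 1) → ℂ) :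
    MvPolynomial (Fin (M + 1)) (ℂ → ℂ) := ∏ l, ∑ i, C (hc t f a l i) * X i

theorem RR_mem (h : Hol t f) (hD : 1 ≤ ∑ b, d b) (a : Fin (M + 1) → ℂ) :
    RR t f a ∈ APoly M := by
  classical
  refine prod_mem_of_psum (APoly M) (fun l => ∑ i, C (hc t f a l i) * X i) fun j => ?_
  have h1 : ∀ l, (∑ i, (C (hc t f a l i) * X i : MvPolynomial (Fin (M + 1)) (ℂ → ℂ))) ^ j =
      ∑ κ ∈ Finset.univ.piAntidiag j, (Nat.multinomial Finset.univ κ : MvPolynomial (Fin (M + 1)) (ℂ → ℂ)) *
        (C (∏ i, hc t f a l i ^ κ i) * ∏ i, X i ^ κ i) := by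
    intro l
    rw [Finset.sum_pow_eq_sum_piAntidiag]
    refine Finset.sum_congr rfl fun κ _ => ?_
    simp only [mul_pow]
    rw [Finset.prod_mul_distrib, map_prod]
    simp only [map_pow]
  rw [Finset.sum_congr rfl fun l _ => h1 l, Finset.sum_comm]
  refine sum_mem fun κ hκ => ?_
  rw [← Finset.mul_sum, ← Finset.sum_mul, ← map_sum]
  refine mul_mem (natCast_mem _ _) (mul_mem (C_mem ?_)
    (prod_mem fun i _ => pow_mem (X_mem i) _))
  -- the power sum
  have hκj : ∑ i, κ i = j := by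
    have := (Finset.mem_piAntidiag.1 hκ).1
    exact this
  obtain ⟨G, hG⟩ : ∃ G : MvPolynomial (Fin (M + 1)) AN, G = (∏ i, X i ^ κ i) *
      (map (algebraMap ℂ AN) (lf a)) ^ (j * (∑ b, d b - 1)) := ⟨_, rfl⟩
  have hGh : G.IsHomogeneous (j * ∑ b, d b) := by
    have h2 : (∏ i, (X i : MvPolynomial (Fin (M + 1)) AN) ^ κ i).IsHomogeneous (∑ i, 1 * κ i) :=
      IsHomogeneous.prod _ _ _ fun i _ => (isHomogeneous_X AN i).pow (κ i)
    have h3 := h2.mul (((lf_hom a).map (algebraMap ℂ AN)).pow (j * (∑ b, d b - 1)))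
    rw [← hG] at h3
    have h4 : ∑ i, 1 * κ i + 1 * (j * (∑ b, d b - 1)) = j * ∑ b, d b := by
      obtain ⟨S, hS⟩ : ∃ S, ∑ b, d b = S + 1 := ⟨∑ b, d b - 1, by omega⟩
      simp only [one_mul]
      rw [hκj, hS, Nat.add_sub_cancel]
      ring
    rwa [h4] at h3
  have h5 := h.sum_mem hGh
  have h6 : ∑ l, ∏ i, hc t f a l i ^ κ i = fun z => ∑ l, hv t f j G l z := by
    funext z
    rw [Finset.sum_apply]
    refine Finset.sum_congr rfl fun l _ => ?_
    rw [Finset.prod_apply]
    have h7 : ∀ i, (hc t f a l i ^ κ i) z = f z l i ^ κ i *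
        (eval (f z l) (lf a) ^ (∑ b, d b - 1) / Dl t f z l) ^ κ i := by
      intro i
      rw [Pi.pow_apply]
      unfold hc
      rw [mul_div_assoc, mul_pow]
    rw [Finset.prod_congr rfl fun i _ => h7 i, Finset.prod_mul_distrib, Finset.prod_pow_eq_pow_sum,
      hκj]
    unfold hv
    rw [hG, eval₂_mul, eval₂_prod, eval₂_pow, eval₂_map]
    have h8 : (evz z).comp (algebraMap ℂ AN) = RingHom.id ℂ := RingHom.ext fun _ => rfl
    rw [h8, div_pow, ← pow_mul, mul_comm (∑ b, d b - 1) j, mul_div_assoc]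
    have h9 : ∀ i, eval₂ (evz z) (f z l) ((X i : MvPolynomial (Fin (M + 1)) AN) ^ κ i) =
        f z l i ^ κ i := fun i => by rw [eval₂_pow, eval₂_X]
    rw [Finset.prod_congr rfl fun i _ => h9 i]
    rfl
  rw [h6]
  exact h5

theorem cl_hc (hC : Cst f) (h : Hol t f) (hD : 1 ≤ ∑ b, d b) (a : Fin (M + 1) → ℂ) (l : Fin δ)
    (i : Fin (M + 1)) : cl (hc t f a l i) ∈ KK := by
  have h1 : (X i * lf a ^ (∑ b, d b - 1)).IsHomogeneous (1 * ∑ b, d b) := by
    have h2 := (isHomogeneous_X ℂ i).mul ((lf_hom a).pow (∑ b, d b - 1))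
    have h3 : 1 + 1 * (∑ b, d b - 1) = 1 * ∑ b, d b := by omega
    rwa [h3] at h2
  have h2 := ratio_mem' hC h h1 l
  have h3 : (fun z => eval (f z l) (X i * lf a ^ (∑ b, d b - 1)) / Dl t f z l ^ 1) =
      hc t f a l i := by
    funext z
    unfold hc
    rw [map_mul, map_pow, eval_X, pow_one]
  rwa [h3] at h2

theorem mero_coeff (hC : Cst f) (h : Hol t f) (hD : 1 ≤ ∑ b, d b) (a : Fin (M + 1) → ℂ)
    (α : Fin (M + 1) →₀ ℕ) : MeromorphicAt (coeff α (RR t f a)) 0 := by
  apply mero_of_alg (RR_mem h hD a α)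
  apply mem_algebraicClosure_iff.1
  have h1 : cl (coeff α (RR t f a)) = coeff α (map cl (RR t f a)) := (coeff_map _ _ _).symm
  have h2 : map cl (RR t f a) = map (algebraMap KK LL)
      (∏ l, ∑ i, C (⟨cl (hc t f a l i), cl_hc hC h hD a l i⟩ : KK) * X i) := by
    unfold RR
    rw [map_prod, map_prod]
    refine Finset.prod_congr rfl fun l _ => ?_
    rw [map_sum, map_sum]
    refine Finset.sum_congr rfl fun i _ => ?_
    rw [map_mul, map_mul, map_C, map_C, map_X, map_X]
    rfl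
  rw [h1, h2, coeff_map]
  exact (coeff α _ : KK).2

theorem map_eval_RR (a : Fin (M + 1) → ℂ) (z : ℂ) :
    map (Pi.evalRingHom (fun _ : ℂ => ℂ) z) (RR t f a) =
      C (∏ l, (eval (f z l) (lf a) ^ (∑ b, d b - 1) / Dl t f z l)) * chow (f z) := by
  unfold RR chow
  rw [map_prod, map_prod, ← Finset.prod_mul_distrib]
  refine Finset.prod_congr rfl fun l _ => ?_
  rw [map_sum, Finset.mul_sum]
  refine Finset.sum_congr rfl fun i _ => ?_
  rw [map_mul, map_C, map_X, ← mul_assoc, ← C_mul]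
  congr 2
  show hc t f a l i z = _
  unfold hc
  ring

/-- the extension theorem -/
theorem extChow (hC : Cst f) (h : Hol t f) (hD : 1 ≤ ∑ b, d b) : ExtChow f := by
  classical
  obtain ⟨a, ha⟩ := exists_lf (fun l => h.ne _ half_mem l)
  -- the product of the values of the linear form
  obtain ⟨Λ, hΛ⟩ : ∃ Λ : ℂ → ℂ, Λ = fun z => ∏ l, hv t f 1
      (map (algebraMap ℂ AN) (lf a) ^ (∑ b, d b)) l z := ⟨_, rfl⟩
  have hΛh : (map (algebraMap ℂ AN) (lf a) ^ (∑ b, d b)).IsHomogeneous (1 * ∑ b, d b) :=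
    ((lf_hom a).map (algebraMap ℂ AN)).pow _
  have hΛan : Λ ∈ AN := by
    rw [hΛ]
    exact h.prod_mem hΛh
  have hΛz : ∀ z, Λ z = ∏ l, eval (f z l) (lf a) ^ (∑ b, d b) / Dl t f z l := by
    intro z
    rw [hΛ]
    refine Finset.prod_congr rfl fun l _ => ?_
    unfold hv
    have h8 : (evz z).comp (algebraMap ℂ AN) = RingHom.id ℂ := RingHom.ext fun _ => rfl
    rw [eval₂_pow, eval₂_map, h8, pow_one]
    rfl
  have hΛm : MeromorphicAt Λ 0 := by
    apply mero_of_alg hΛan
    apply mem_algebraicClosure_iff.1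
    have h1 : cl Λ = ∏ l, cl (fun z => eval (f z l) (lf a ^ (∑ b, d b)) / Dl t f z l ^ 1) := by
      rw [← cl_prod]
      congr 1
      funext z
      rw [hΛz]
      refine Finset.prod_congr rfl fun l _ => ?_
      rw [map_pow, pow_one]
    rw [h1]
    refine prod_mem fun l _ => ratio_mem' hC h ?_ l
    exact (lf_hom a).pow _
  have hΛ0 : ∀ᶠ z in 𝓝[≠] (0 : ℂ), Λ z ≠ 0 := by
    rcases hΛm.eventually_eq_zero_or_eventually_ne_zero with h1 | h1
    · exfalso
      have h2 := eq_zero_on one_pos hΛan h1 _ half_mem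
      rw [hΛz, Finset.prod_eq_zero_iff] at h2
      obtain ⟨l, -, hl⟩ := h2
      exact div_ne_zero (pow_ne_zero _ (ha l)) (h.Dl_ne half_mem l) hl
    · exact h1
  -- the factor
  obtain ⟨r₀, hr₀, hr₁⟩ := ev_iff.1 (hΛ0.and (PB_mem one_pos))
  obtain ⟨r, hr, hrr, hr1⟩ : ∃ r : ℝ, 0 < r ∧ r ≤ r₀ ∧ r ≤ 1 :=
    ⟨min r₀ 1, lt_min hr₀ one_pos, min_le_left _ _, min_le_right _ _⟩
  have hκ : ∀ z ∈ PB r, ∏ l, (eval (f z l) (lf a) ^ (∑ b, d b - 1) / Dl t f z l) ≠ 0 := by
    intro z hz
    have h1 := (hr₁ z (PB_mono hrr hz)).1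
    rw [hΛz, Finset.prod_ne_zero_iff] at h1
    refine Finset.prod_ne_zero_iff.2 fun l _ => div_ne_zero (pow_ne_zero _ ?_)
      (h.Dl_ne (PB_mono hr1 hz) l)
    intro h2
    apply h1 l (Finset.mem_univ l)
    rw [h2, zero_pow (by omega), zero_div]
  -- the coordinates
  obtain ⟨N, hN⟩ : ∃ N, Fintype.card (Mon M δ) = N + 1 := by
    refine ⟨Fintype.card (Mon M δ) - 1, ?_⟩
    have : Nonempty (Mon M δ) := ⟨⟨Finsupp.single 0 δ, by rw [Finsupp.degree_single]⟩⟩
    have := Fintype.card_pos (α := Mon M δ)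
    omega
  obtain ⟨e⟩ : Nonempty (Fin (N + 1) ≃ Mon M δ) := ⟨(Fintype.equivFinOfCardEq hN).symm⟩
  have hhom : ∀ z α, α.degree ≠ δ → coeff α (RR t f a) z = 0 := by
    intro z α hα
    have h1 : coeff α (map (Pi.evalRingHom (fun _ : ℂ => ℂ) z) (RR t f a)) = coeff α (RR t f a) z := by
      rw [coeff_map]; rfl
    rw [← h1, map_eval_RR, coeff_C_mul]
    have h2 : (chow (f z)).IsHomogeneous (∑ _l : Fin δ, 1) :=
      IsHomogeneous.prod _ _ _ fun l _ => lf_hom (f z l)
    rw [Finset.sum_const, Finset.card_univ, Fintype.card_fin, smul_eq_mul, mul_one] at h2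
    rw [h2.coeff_eq_zero hα, mul_zero]
  obtain ⟨F, hF⟩ : ∃ F : ℂ → Fin (N + 1) → ℂ, F = fun w j =>
      coeff (e j).1 (RR t f a) ((r : ℂ) * w) := ⟨_, rfl⟩
  have hrw : ∀ w ∈ PB 1, (r : ℂ) * w ∈ PB r := by
    intro w hw
    refine ⟨mul_ne_zero (by exact_mod_cast hr.ne') hw.1, ?_⟩
    rw [norm_mul, Complex.norm_real, Real.norm_of_nonneg hr.le]
    have := hw.2
    nlinarith
  have hFan : ∀ j, AnalyticOnNhd ℂ (fun w => F w j) (PB 1) := by
    intro j w hw
    have h1 := RR_mem h hD a (e j).1 _ (PB_mono hr1 (hrw w hw))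
    have h2 : AnalyticAt ℂ (fun w : ℂ => (r : ℂ) * w) w := analyticAt_const.fun_mul analyticAt_id
    have h3 := h1.fun_comp h2
    rw [hF]
    exact h3
  have hRz : ∀ z, map (Pi.evalRingHom (fun _ : ℂ => ℂ) z) (RR t f a) =
      ∑ j, monomial (e j).1 (coeff (e j).1 (RR t f a) z) := by
    intro z
    ext α
    rw [coeff_map, coeff_sum]
    simp only [coeff_monomial]
    by_cases hα : α.degree = δ
    · rw [Finset.sum_eq_single (e.symm ⟨α, hα⟩)]
      · rw [Equiv.apply_symm_apply, if_pos rfl]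
        rfl
      · intro j _ hj
        rw [if_neg]
        intro h1
        apply hj
        rw [Equiv.eq_symm_apply]
        exact Subtype.ext h1
      · intro h1; exact absurd (Finset.mem_univ _) h1
    · refine (hhom z α hα).trans ?_
      symm
      refine Finset.sum_eq_zero fun j _ => ?_
      rw [if_neg]
      intro h1
      apply hα
      rw [← h1]
      exact (e j).2
  have hFne : ∀ w ∈ PB 1, F w ≠ 0 := by
    intro w hw h0
    have h1 : map (Pi.evalRingHom (fun _ : ℂ => ℂ) ((r : ℂ) * w)) (RR t f a) = 0 := by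
      rw [hRz]
      refine Finset.sum_eq_zero fun j _ => ?_
      have h2 := congrFun h0 j
      rw [hF] at h2
      simp only [Pi.zero_apply] at h2
      rw [h2, monomial_zero]
    rw [map_eval_RR, mul_eq_zero, C_eq_zero] at h1
    rcases h1 with h1 | h1
    · exact hκ _ (hrw w hw) h1
    · exact chow_ne (fun l => h.ne _ (PB_mono hr1 (hrw w hw)) l) h1
  have hFm : ∀ j, MeromorphicAt (fun w => F w j) 0 := by
    intro j
    have h1 := mero_coeff hC h hD a (e j).1
    have h2 : AnalyticAt ℂ (fun w : ℂ => (r : ℂ) * w) 0 := analyticAt_const.fun_mul analyticAt_id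
    have h3 : MeromorphicAt (coeff (e j).1 (RR t f a)) ((fun w : ℂ => (r : ℂ) * w) 0) := by
      show MeromorphicAt _ ((r : ℂ) * 0)
      rw [mul_zero]; exact h1
    have h4 := h3.comp_analyticAt h2
    rw [hF]
    exact h4
  obtain ⟨g, hg1, hg2, hg3⟩ := extends_of F hFan hFne (fun j k _ hk => by
    refine ⟨fun w => F w j / F w k, (hFm j).fun_div (hFm k), ?_⟩
    filter_upwards [mero_ne (hFm k) hk] with w hw
    field_simp)
  refine ⟨r, hr, fun z => ∑ j, monomial (e j).1 (g (z / r) j), ?_, ?_, ?_⟩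
  · intro α
    have h1 : (fun z : ℂ => coeff α (∑ j, monomial (e j).1 (g (z / r) j))) =
        fun z => ∑ j, if (e j).1 = α then g (z / r) j else 0 := by
      funext z
      rw [coeff_sum]
      simp only [coeff_monomial]
    rw [h1]
    refine DifferentiableOn.fun_sum fun j _ => ?_
    by_cases hj : (e j).1 = α
    · simp only [if_pos hj]
      have h2 : DifferentiableOn ℂ (fun w => g w j) (ball 0 1) := differentiableOn_pi.1 hg1 j
      refine h2.comp (t := ball 0 1) (f := fun z : ℂ => z / r)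
        (differentiable_id.div_const _).differentiableOn ?_
      intro z hz
      rw [mem_ball_zero_iff] at hz ⊢
      rw [norm_div, Complex.norm_real, Real.norm_of_nonneg hr.le, div_lt_one hr]
      exact hz
    · simp only [if_neg hj]
      exact differentiableOn_const _
  · intro z hz h0
    have h1 : z / r ∈ ball (0 : ℂ) 1 := by
      rw [mem_ball_zero_iff] at hz ⊢
      rw [norm_div, Complex.norm_real, Real.norm_of_nonneg hr.le, div_lt_one hr]
      exact hz
    apply hg2 _ h1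
    funext j
    have h2 := congrArg (coeff (e j).1) h0
    rw [coeff_sum, coeff_zero] at h2
    simp only [coeff_monomial] at h2
    rw [Finset.sum_eq_single j] at h2
    · simpa using h2
    · intro i _ hi
      rw [if_neg]
      intro h3
      exact hi (e.injective (Subtype.ext h3))
    · intro h3; exact absurd (Finset.mem_univ _) h3
  · intro z hz
    have hz0 : z ≠ 0 := hz.2
    have hzr : z ∈ PB r := ⟨hz0, by simpa using hz.1⟩
    have hr0 : (r : ℂ) ≠ 0 := by exact_mod_cast hr.ne'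
    have h1 : z / r ∈ ball (0 : ℂ) 1 \ {0} := by
      refine ⟨?_, ?_⟩
      · rw [mem_ball_zero_iff, norm_div, Complex.norm_real, Real.norm_of_nonneg hr.le,
          div_lt_one hr]
        exact hzr.2
      · rw [mem_singleton_iff, div_eq_zero_iff, not_or]
        exact ⟨hz0, hr0⟩
    obtain ⟨c, hc⟩ := hg3 _ h1
    have h2 := hRz z
    rw [map_eval_RR] at h2
    obtain ⟨κ, hκz⟩ : ∃ κ, κ = ∏ l, (eval (f z l) (lf a) ^ (∑ b, d b - 1) / Dl t f z l) := ⟨_, rfl⟩
    have hκ0 : κ ≠ 0 := by rw [hκz]; exact hκ z hzr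
    rw [← hκz] at h2
    refine ⟨κ⁻¹ * c, ?_⟩
    have h3 : ∀ j, coeff (e j).1 (RR t f a) z = c * g (z / r) j := by
      intro j
      have h4 := congrFun hc j
      rw [hF] at h4
      simp only [Pi.smul_apply, smul_eq_mul] at h4
      rw [mul_div_cancel₀ _ hr0] at h4
      exact h4
    have h5 : chow (f z) = κ⁻¹ • (C κ * chow (f z)) := by
      rw [C_mul', smul_smul, inv_mul_cancel₀ hκ0, one_smul]
    rw [h5, h2, mul_smul]
    congr 1
    rw [Finset.smul_sum]
    refine Finset.sum_congr rfl fun j _ => ?_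
    rw [h3, smul_monomial, smul_eq_mul]

end Run7.h493.PS
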