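import Mathlib

/-!
# Linear disjointness
-/

set_option autoImplicit false

namespace Run7.h493.PS

open Polynomial

/-- the minimal polynomial over a larger field in which the smaller one is algebraically closed -/
theorem natDegree_minpoly_le {K E L : Type} [Field K] [Field E] [Field L] [Algebra K E]
    [Algebra E L] [Algebra K L] [IsScalarTower K E L]
    (hcl : ∀ e : E, IsAlgebraic K e → ∃ a : K, algebraMap K E a = e) (θ : L)
    (hθ : IsIntegral K θ) : (minpoly K θ).natDegree ≤ (minpoly E θ).natDegree := by
  have hθE : IsIntegral E θ := hθ.tower_top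
  have h1 : minpoly E θ ∣ (minpoly K θ).map (algebraMap K E) := by
    apply minpoly.dvd
    rw [aeval_map_algebraMap]
    exact minpoly.aeval K θ
  have h2 := integralClosure.mem_lifts_of_monic_of_dvd_map E (minpoly.monic hθ)
    (minpoly.monic hθE) h1
  obtain ⟨g, hg⟩ := (mem_lifts _).1 h2
  -- the coefficients are in `K`
  have h3 : minpoly E θ ∈ lifts (algebraMap K E) := by
    rw [lifts_iff_coeff_lifts]
    intro n
    have h4 : (minpoly E θ).coeff n = ((g.coeff n : integralClosure K E) : E) := by
      rw [← hg, coeff_map]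
      rfl
    have h5 : IsIntegral K ((g.coeff n : integralClosure K E) : E) := (g.coeff n).2
    obtain ⟨a, ha⟩ := hcl _ h5.isAlgebraic
    exact ⟨a, by rw [h4, ← ha]⟩
  obtain ⟨g₀, hg₀⟩ := (mem_lifts _).1 h3
  have h6 : aeval θ g₀ = 0 := by
    rw [← aeval_map_algebraMap E θ g₀, hg₀]
    exact minpoly.aeval E θ
  have h7 : g₀ ≠ 0 := by
    rintro rfl
    rw [Polynomial.map_zero] at hg₀
    exact minpoly.ne_zero hθE hg₀.symm
  have h8 := natDegree_le_of_dvd (minpoly.dvd K θ h6) h7
  have h9 : (minpoly E θ).natDegree = g₀.natDegree := by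
    rw [← hg₀, natDegree_map_eq_of_injective (algebraMap K E).injective]
  rw [h9]
  exact h8

/-- linear disjointness -/
theorem ld {K E L : Type} [Field K] [Field E] [Field L] [Algebra K E]
    [Algebra E L] [Algebra K L] [IsScalarTower K E L] [CharZero K]
    (hcl : ∀ e : E, IsAlgebraic K e → ∃ a : K, algebraMap K E a = e) {ι : Type} [Fintype ι]
    (u : ι → E) (hu : ∀ c : ι → K, ∑ i, algebraMap K E (c i) * u i = 0 → ∀ i, c i = 0)
    (c : ι → L) (hc : ∀ i, IsAlgebraic K (c i))
    (h : ∑ i, c i * algebraMap E L (u i) = 0) : ∀ i, c i = 0 := by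
  classical
  have hci : ∀ i, IsIntegral K (c i) := fun i => (hc i).isIntegral
  -- a primitive element
  obtain ⟨θ, hθ, hcθ⟩ : ∃ θ : L, IsIntegral K θ ∧ ∀ i, c i ∈ IntermediateField.adjoin K {θ} := by
    have hfin : FiniteDimensional K (IntermediateField.adjoin K (Set.range c)) :=
      IntermediateField.finiteDimensional_adjoin fun x hx => by
        obtain ⟨i, rfl⟩ := hx
        exact hci i
    obtain ⟨θ, hθ⟩ := Field.exists_primitive_element K (IntermediateField.adjoin K (Set.range c))
    refine ⟨θ, ?_, fun i => ?_⟩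
    · exact (IntermediateField.isIntegral_iff).1 (Algebra.IsIntegral.isIntegral θ)
    · have h1 : (⟨c i, IntermediateField.subset_adjoin K _ ⟨i, rfl⟩⟩ :
          IntermediateField.adjoin K (Set.range c)) ∈ IntermediateField.adjoin K {θ} := by
        rw [hθ]
        trivial
      have h2 : (IntermediateField.adjoin K {θ}).map
          (IntermediateField.adjoin K (Set.range c)).val =
          IntermediateField.adjoin K {(θ : L)} := by
        rw [IntermediateField.adjoin_map, Set.image_singleton]
        rfl
      rw [← h2]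
      exact ⟨_, h1, rfl⟩
  -- polynomials
  have hp : ∀ i, ∃ p : K[X], p.natDegree < (minpoly K θ).natDegree ∧ aeval θ p = c i := by
    intro i
    have h1 : c i ∈ Algebra.adjoin K {θ} := by
      have := hcθ i
      rwa [← IntermediateField.mem_toSubalgebra,
        IntermediateField.adjoin_simple_toSubalgebra_of_isAlgebraic hθ.isAlgebraic] at this
    rw [Algebra.adjoin_singleton_eq_range_aeval] at h1
    obtain ⟨p, hp⟩ := h1
    refine ⟨p %ₘ minpoly K θ, ?_, ?_⟩
    · exact natDegree_modByMonic_lt p (minpoly.monic hθ) (minpoly.ne_one K θ)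
    · have h2 : aeval θ (p %ₘ minpoly K θ) = aeval θ p :=
        aeval_modByMonic_eq_self_of_root (minpoly.aeval K θ)
      rw [h2]
      exact hp
  choose p hp1 hp2 using hp
  obtain ⟨Q, hQ⟩ : ∃ Q : E[X], Q = ∑ i, C (u i) * (p i).map (algebraMap K E) := ⟨_, rfl⟩
  have hQθ : aeval θ Q = 0 := by
    rw [hQ, map_sum, ← h]
    refine Finset.sum_congr rfl fun i _ => ?_
    rw [map_mul, aeval_C, aeval_map_algebraMap, hp2, mul_comm]
  have hN := natDegree_minpoly_le hcl θ hθ
  have hpos : 0 < (minpoly K θ).natDegree := minpoly.natDegree_pos hθ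
  have hQdeg : Q.natDegree < (minpoly E θ).natDegree := by
    refine lt_of_lt_of_le ?_ hN
    rw [hQ]
    refine lt_of_le_of_lt (natDegree_sum_le_of_forall_le (n := (minpoly K θ).natDegree - 1)
      Finset.univ _ fun i _ => ?_) (Nat.sub_lt hpos one_pos)
    refine (natDegree_C_mul_le _ _).trans ((natDegree_map_le).trans ?_)
    have := hp1 i
    omega
  have hQ0 : Q = 0 := by
    by_contra hne
    have h1 := natDegree_le_of_dvd (minpoly.dvd E θ hQθ) hne
    omega
  have hcoef : ∀ n i, (p i).coeff n = 0 := by
    intro n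
    apply hu
    have h1 := congrArg (fun Q => coeff Q n) hQ0
    simp only [hQ, finsetSum_coeff, coeff_C_mul, coeff_map, coeff_zero] at h1
    rw [← h1]
    exact Finset.sum_congr rfl fun i _ => mul_comm _ _
  intro i
  have h1 : p i = 0 := Polynomial.ext fun n => by rw [hcoef n i, coeff_zero]
  rw [← hp2 i, h1, map_zero]

end Run7.h493.PS
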