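import Mathlib
import Pool.Agent.NH29.GN.Stb
import Pool.Agent.W603.BP.RAn
import Pool.Agent.Run7.h493.PS.Ld

/-!
# The fields of the meromorphic functions on the disc and on the punctured disc
-/

set_option autoImplicit false

namespace Run7.h493.PS

open Filter Topology Metric Set
open Pool.Agent.W603.BP
open Pool.Agent.W603.BPR (gr_of_alg)
open Pool.Agent.NH29.GN.Stb

/-- an ultrafilter which converges to `1 / 2` -/
noncomputable def UU : Ultrafilter ℂ := Ultrafilter.of (𝓝[≠] (1 / 2 : ℂ))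

theorem UU_le : (UU : Filter ℂ) ≤ 𝓝[≠] (1 / 2 : ℂ) := Ultrafilter.of_le _

/-- germs along the ultrafilter -/
abbrev LL : Type := (UU : Filter ℂ).Germ ℂ

/-- the class of a function -/
noncomputable def cl : (ℂ → ℂ) →+* LL := pr UU ℂ

theorem cl_eq {f g : ℂ → ℂ} : cl f = cl g ↔ ∀ᶠ i in (UU : Filter ℂ), f i = g i := pr_eq UU

theorem cl_eq_zero {f : ℂ → ℂ} : cl f = 0 ↔ ∀ᶠ i in (UU : Filter ℂ), f i = 0 := pr_eq_zero UU

theorem cl_surj (a : LL) : ∃ f : ℂ → ℂ, a = cl f := pr_surj UU a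

theorem cl_inv (f : ℂ → ℂ) : cl (fun i => (f i)⁻¹) = (cl f)⁻¹ := pr_inv UU f

theorem cl_div (f g : ℂ → ℂ) : cl (fun i => f i / g i) = cl f / cl g := pr_div UU f g

theorem cl_zpow (f : ℂ → ℂ) (n : ℤ) : cl (fun i => f i ^ n) = cl f ^ n := pr_zpow UU f n

theorem cl_pow (f : ℂ → ℂ) (n : ℕ) : cl (fun i => f i ^ n) = cl f ^ n := pr_pow UU f n

theorem cl_mul (f g : ℂ → ℂ) : cl (fun i => f i * g i) = cl f * cl g := pr_mul UU f g

theorem cl_sum {J : Type} (S : Finset J) (f : J → ℂ → ℂ) :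
    cl (fun i => ∑ j ∈ S, f j i) = ∑ j ∈ S, cl (f j) := pr_sum UU S f

theorem cl_prod {J : Type} (S : Finset J) (f : J → ℂ → ℂ) :
    cl (fun i => ∏ j ∈ S, f j i) = ∏ j ∈ S, cl (f j) := pr_prod UU S f

instance : IsAlgClosed LL := closed UU ℂ

theorem half_mem : (1 / 2 : ℂ) ∈ PB 1 := by
  refine ⟨by norm_num, ?_⟩
  rw [norm_div, norm_one, Complex.norm_ofNat]
  norm_num

theorem PB_sub_ball : PB 1 ⊆ ball (0 : ℂ) 1 := by
  intro w hw
  rw [mem_ball_zero_iff]
  exact hw.2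

/-! ### The identity theorem -/

theorem ev_zero_of_cl {h : ℂ → ℂ} (hm : MeromorphicOn h (PB 1)) (h0 : cl h = 0) :
    ∀ z ∈ PB 1, ∀ᶠ w in 𝓝[≠] z, h w = 0 := by
  intro z hz
  have h1 : ∀ᶠ w in 𝓝[≠] (1 / 2 : ℂ), h w = 0 := by
    rcases (hm _ half_mem).eventually_eq_zero_or_eventually_ne_zero with h1 | h1
    · exact h1
    · exfalso
      obtain ⟨w, hw1, hw2⟩ := ((cl_eq_zero.1 h0).and (h1.filter_mono UU_le)).exists
      exact hw2 hw1
  have h2 : meromorphicOrderAt h (1 / 2 : ℂ) = ⊤ := meromorphicOrderAt_eq_top_iff.2 h1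
  have h3 : meromorphicOrderAt h z = ⊤ := by
    by_contra hne
    exact hm.meromorphicOrderAt_ne_top_of_isPreconnected (PB_preconn one_pos) hz half_mem hne h2
  exact meromorphicOrderAt_eq_top_iff.1 h3

theorem ev_zero_at {h : ℂ → ℂ} (hm : MeromorphicOn h (PB 1)) (hp : Pun h) (h0 : cl h = 0) :
    ∀ᶠ w in 𝓝[≠] (0 : ℂ), h w = 0 := by
  filter_upwards [hp, PB_mem one_pos] with w hw1 hw2
  have h1 := ev_zero_of_cl hm h0 w hw2
  have h2 : Tendsto h (𝓝[≠] w) (𝓝 (h w)) := hw1.continuousAt.tendsto.mono_left nhdsWithin_le_nhds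
  exact tendsto_nhds_unique h2 (tendsto_const_nhds.congr' (h1.mono fun x hx => hx.symm))

theorem cl_zero_of_ev {h : ℂ → ℂ} (hm : MeromorphicOn h (PB 1))
    (h0 : ∀ᶠ w in 𝓝[≠] (0 : ℂ), h w = 0) : cl h = 0 := by
  obtain ⟨δ, hδ, h1⟩ := ev_iff.1 h0
  have hδ1 : 0 < min δ 1 := lt_min hδ one_pos
  obtain ⟨z, hz⟩ := PB_nonempty hδ1
  have hz1 : z ∈ PB 1 := PB_mono (min_le_right _ _) hz
  have h2 : ∀ᶠ w in 𝓝[≠] z, h w = 0 := by
    filter_upwards [nhdsWithin_le_nhds ((PB_open _).mem_nhds hz)] with w hw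
    exact h1 w (PB_mono (min_le_left _ _) hw)
  have h3 : meromorphicOrderAt h (1 / 2 : ℂ) = ⊤ := by
    by_contra hne
    exact hm.meromorphicOrderAt_ne_top_of_isPreconnected (PB_preconn one_pos) half_mem hz1 hne
      (meromorphicOrderAt_eq_top_iff.2 h2)
  rw [cl_eq_zero]
  exact (meromorphicOrderAt_eq_top_iff.1 h3).filter_mono UU_le

theorem ev_ne_of_cl {h : ℂ → ℂ} (hm : MeromorphicOn h (PB 1)) (h0 : cl h ≠ 0) :
    ∀ z ∈ PB 1, ∀ᶠ w in 𝓝[≠] z, h w ≠ 0 := by
  intro z hz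
  rcases (hm _ hz).eventually_eq_zero_or_eventually_ne_zero with h1 | h1
  · exfalso
    apply h0
    have h3 : meromorphicOrderAt h (1 / 2 : ℂ) = ⊤ := by
      by_contra hne
      exact hm.meromorphicOrderAt_ne_top_of_isPreconnected (PB_preconn one_pos) half_mem hz hne
        (meromorphicOrderAt_eq_top_iff.2 h1)
    rw [cl_eq_zero]
    exact (meromorphicOrderAt_eq_top_iff.1 h3).filter_mono UU_le
  · exact h1

/-! ### The meromorphic functions on the disc -/

/-- the meromorphic functions on the disc -/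
noncomputable def K₀ : Subfield LL where
  carrier := {x | ∃ g : ℂ → ℂ, MeromorphicOn g (ball 0 1) ∧ cl g = x}
  mul_mem' := by
    rintro _ _ ⟨a, ha, rfl⟩ ⟨b, hb, rfl⟩
    exact ⟨a * b, ha.mul hb, map_mul cl a b⟩
  one_mem' := ⟨1, MeromorphicOn.const 1, map_one cl⟩
  add_mem' := by
    rintro _ _ ⟨a, ha, rfl⟩ ⟨b, hb, rfl⟩
    exact ⟨a + b, ha.add hb, map_add cl a b⟩
  zero_mem' := ⟨0, MeromorphicOn.const 0, map_zero cl⟩
  neg_mem' := by
    rintro _ ⟨a, ha, rfl⟩
    exact ⟨-a, ha.neg, map_neg cl a⟩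
  inv_mem' := by
    rintro _ ⟨a, ha, rfl⟩
    exact ⟨fun i => (a i)⁻¹, ha.inv, cl_inv a⟩

/-- the constants -/
noncomputable def cst : ℂ →+* LL := cl.comp (Pi.constRingHom ℂ ℂ)

theorem cst_apply (a : ℂ) : cst a = cl (fun _ => a) := rfl

instance : CharZero LL := charZero_of_injective_ringHom cst.injective

instance : CharZero K₀ := RingHom.charZero (algebraMap K₀ LL)

theorem mem_K₀ {x : LL} : x ∈ K₀ ↔ ∃ g : ℂ → ℂ, MeromorphicOn g (ball 0 1) ∧ cl g = x := Iff.rfl

/-- the functions which are meromorphic on the punctured disc, and analytic near the origin -/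
structure MP (a : ℂ → ℂ) : Prop where
  mero : MeromorphicOn a (PB 1)
  pun : Pun a

theorem MP.mul {a b : ℂ → ℂ} (ha : MP a) (hb : MP b) : MP (fun w => a w * b w) :=
  ⟨ha.mero.fun_mul hb.mero, ha.pun.mul hb.pun⟩

theorem MP.add {a b : ℂ → ℂ} (ha : MP a) (hb : MP b) : MP (fun w => a w + b w) := by
  refine ⟨ha.mero.fun_add hb.mero, ?_⟩
  filter_upwards [ha.pun, hb.pun] with w h1 h2
  exact h1.fun_add h2

theorem MP.of_mero {a : ℂ → ℂ} (ha : MeromorphicOn a (ball 0 1)) : MP a :=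
  ⟨ha.mono_set PB_sub_ball, Pun.mero (ha 0 (mem_ball_self one_pos))⟩

theorem MP.pow {a : ℂ → ℂ} (ha : MP a) (n : ℕ) : MP (fun w => a w ^ n) :=
  ⟨ha.mero.fun_pow n, ha.pun.pow n⟩

theorem MP.sum {ι : Type} (S : Finset ι) {a : ι → ℂ → ℂ} (ha : ∀ i ∈ S, MP (a i)) :
    MP (fun w => ∑ i ∈ S, a i w) := by
  refine ⟨?_, Pun.sum S fun i hi => (ha i hi).pun⟩
  intro z hz
  exact MeromorphicAt.fun_sum fun i hi => (ha i hi).mero z hz

theorem MP.of_an {a : ℂ → ℂ} (ha : AnalyticOnNhd ℂ a (PB 1)) : MP a :=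
  ⟨fun z hz => (ha z hz).meromorphicAt, on_pun one_pos ha⟩

/-- quotients of functions which are meromorphic on the punctured disc -/
noncomputable def EE : IntermediateField K₀ LL where
  carrier := {x | ∃ a b : ℂ → ℂ, MP a ∧ MP b ∧ cl b ≠ 0 ∧ x * cl b = cl a}
  mul_mem' := by
    rintro x y ⟨a, b, ha, hb, h0, h⟩ ⟨a', b', ha', hb', h0', h'⟩
    refine ⟨_, _, ha.mul ha', hb.mul hb', ?_, ?_⟩
    · rw [cl_mul]; exact mul_ne_zero h0 h0'
    · rw [cl_mul, cl_mul, ← h, ← h']; ring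
  one_mem' := ⟨fun _ => 1, fun _ => 1, MP.of_mero (MeromorphicOn.const 1),
    MP.of_mero (MeromorphicOn.const 1), by
      have h1 : cl (fun _ => 1) = 1 := map_one cl
      rw [h1]; exact one_ne_zero, by rw [one_mul]⟩
  add_mem' := by
    rintro x y ⟨a, b, ha, hb, h0, h⟩ ⟨a', b', ha', hb', h0', h'⟩
    refine ⟨fun w => a w * b' w + a' w * b w, _, (ha.mul hb').add (ha'.mul hb), hb.mul hb', ?_, ?_⟩
    · rw [cl_mul]; exact mul_ne_zero h0 h0'
    · have h1 : cl (fun w => a w * b' w + a' w * b w) = cl a * cl b' + cl a' * cl b := by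
        rw [← cl_mul, ← cl_mul]
        exact map_add cl _ _
      rw [h1, cl_mul, ← h, ← h']; ring
  zero_mem' := ⟨fun _ => 0, fun _ => 1, MP.of_mero (MeromorphicOn.const 0),
    MP.of_mero (MeromorphicOn.const 1), by
      have h1 : cl (fun _ => 1) = 1 := map_one cl
      rw [h1]; exact one_ne_zero, by
      have h1 : cl (fun _ => 0) = 0 := map_zero cl
      rw [zero_mul, h1]⟩
  algebraMap_mem' := by
    rintro ⟨x, g, hg, rfl⟩
    refine ⟨g, fun _ => 1, MP.of_mero hg, MP.of_mero (MeromorphicOn.const 1), ?_, ?_⟩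
    · have h1 : cl (fun _ => 1) = 1 := map_one cl
      rw [h1]; exact one_ne_zero
    · have h1 : cl (fun _ => 1) = 1 := map_one cl
      rw [h1, mul_one]
      rfl
  inv_mem' := by
    rintro x ⟨a, b, ha, hb, h0, h⟩
    by_cases hx : x = 0
    · subst hx
      refine ⟨fun _ => 0, fun _ => 1, MP.of_mero (MeromorphicOn.const 0),
        MP.of_mero (MeromorphicOn.const 1), ?_, ?_⟩
      · have h1 : cl (fun _ => 1) = 1 := map_one cl
        rw [h1]; exact one_ne_zero
      · have h1 : cl (fun _ => 0) = 0 := map_zero cl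
        rw [inv_zero, zero_mul, h1]
    · refine ⟨b, a, hb, ha, ?_, ?_⟩
      · rw [← h]; exact mul_ne_zero hx h0
      · rw [← h, ← mul_assoc, inv_mul_cancel₀ hx, one_mul]

theorem mem_EE {x : LL} : x ∈ EE ↔ ∃ a b : ℂ → ℂ, MP a ∧ MP b ∧ cl b ≠ 0 ∧ x * cl b = cl a :=
  Iff.rfl

theorem mem_EE_of {a : ℂ → ℂ} (ha : MP a) : cl a ∈ EE := by
  refine ⟨a, fun _ => 1, ha, MP.of_mero (MeromorphicOn.const 1), ?_, ?_⟩
  · have h1 : cl (fun _ => 1) = 1 := map_one cl
    rw [h1]; exact one_ne_zero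
  · have h1 : cl (fun _ => 1) = 1 := map_one cl
    rw [h1, mul_one]

theorem closed_aux {a b : ℂ → ℂ} (ha : MP a) (hb : MP b) (h0 : cl b ≠ 0) (h : MRel a b) :
    cl a / cl b ∈ K₀ := by
  classical
  obtain ⟨ρ, hρ, he⟩ := h
  obtain ⟨r₁, hr₁, h1⟩ := ev_iff.1 he
  obtain ⟨r₂, hr₂, h2⟩ := ev_iff.1 (Pun.mero hρ)
  obtain ⟨r, hr0, hr1, hr2, hr3⟩ : ∃ r : ℝ, 0 < r ∧ r ≤ r₁ ∧ r ≤ r₂ ∧ r ≤ 1 / 4 :=
    ⟨min r₁ (min r₂ (1 / 4)), lt_min hr₁ (lt_min hr₂ (by norm_num)), min_le_left _ _,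
      (min_le_right _ _).trans (min_le_left _ _), (min_le_right _ _).trans (min_le_right _ _)⟩
  refine ⟨fun w => if ‖w‖ < r then ρ w else a w / b w, ?_, ?_⟩
  · intro z hz
    by_cases hzr : ‖z‖ < r
    · have h3 : MeromorphicAt ρ z := by
        by_cases hz0 : z = 0
        · rw [hz0]; exact hρ
        · exact (h2 z ⟨hz0, hzr.trans_le hr2⟩).meromorphicAt
      refine h3.congr ?_
      have h4 : ∀ᶠ w in 𝓝 z, ‖w‖ < r := (continuous_norm.continuousAt).eventually_lt_const hzr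
      filter_upwards [nhdsWithin_le_nhds h4] with w hw
      rw [if_pos hw]
    · push Not at hzr
      have hz1 : z ∈ PB 1 := by
        refine ⟨?_, by simpa using hz⟩
        rintro rfl
        rw [norm_zero] at hzr
        linarith
      have h3 : MeromorphicAt (fun w => a w / b w) z := (ha.mero z hz1).fun_div (hb.mero z hz1)
      refine h3.congr ?_
      filter_upwards [ev_ne_of_cl hb.mero h0 z hz1,
        nhdsWithin_le_nhds ((PB_open 1).mem_nhds hz1)] with w hw1 hw2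
      by_cases hwr : ‖w‖ < r
      · rw [if_pos hwr, h1 w ⟨hw2.1, hwr.trans_le hr1⟩]
        field_simp
      · rw [if_neg hwr]
  · rw [← cl_div, cl_eq]
    have h4 : ∀ᶠ w in 𝓝 (1 / 2 : ℂ), r < ‖w‖ := by
      refine (continuous_norm.continuousAt).eventually_const_lt ?_
      show r < ‖(1 / 2 : ℂ)‖
      rw [norm_div, norm_one, Complex.norm_ofNat]
      linarith
    filter_upwards [(h4.filter_mono nhdsWithin_le_nhds).filter_mono UU_le] with w hw
    rw [if_neg (not_lt.2 hw.le)]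

/-- the meromorphic functions on the disc are algebraically closed in those on the punctured disc -/
theorem EE_closed (e : EE) (he : IsAlgebraic K₀ e) : ∃ a : K₀, algebraMap K₀ EE a = e := by
  classical
  obtain ⟨x, a, b, ha, hb, h0, h⟩ := e
  obtain ⟨p, hp, hpe⟩ := he
  have hpx : Polynomial.aeval x p = 0 := by
    have h1 := congrArg (algebraMap EE LL) hpe
    rw [map_zero, ← Polynomial.aeval_algebraMap_apply] at h1
    exact h1
  choose ρ hρ1 hρ2 using fun d : ℕ => (p.coeff d).2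
  obtain ⟨D, hD⟩ : ∃ D, D = p.natDegree := ⟨_, rfl⟩
  have hx : x = cl a / cl b := by
    rw [eq_div_iff h0]; exact h
  obtain ⟨H, hH⟩ : ∃ H : ℂ → ℂ, H = fun w => ∑ d ∈ Finset.range (D + 1),
      ρ d w * a w ^ d * b w ^ (D - d) := ⟨_, rfl⟩
  have hHmp : MP H := by
    rw [hH]
    exact MP.sum _ fun d _ => ((MP.of_mero (hρ1 d)).mul (ha.pow d)).mul (hb.pow (D - d))
  have hH0 : cl H = 0 := by
    rw [hH, cl_sum]
    have h1 : ∀ d ∈ Finset.range (D + 1), cl (fun w => ρ d w * a w ^ d * b w ^ (D - d)) =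
        cl b ^ D * ((p.coeff d : LL) * x ^ d) := by
      intro d hd
      have hd' : d ≤ D := Nat.lt_succ_iff.1 (Finset.mem_range.1 hd)
      rw [cl_mul (fun w => ρ d w * a w ^ d) (fun w => b w ^ (D - d)), cl_mul (ρ d) (fun w => a w ^ d),
        cl_pow, cl_pow, hρ2, ← h, mul_pow]
      have h2 : cl b ^ D = cl b ^ d * cl b ^ (D - d) := by
        rw [← pow_add, Nat.add_sub_cancel' hd']
      rw [h2]
      ring
    rw [Finset.sum_congr rfl h1, ← Finset.mul_sum]
    have h3 : ∑ d ∈ Finset.range (D + 1), (p.coeff d : LL) * x ^ d = Polynomial.aeval x p := by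
      rw [Polynomial.aeval_eq_sum_range, hD]
      exact Finset.sum_congr rfl fun d _ => by rw [Algebra.smul_def]; rfl
    rw [h3, hpx, mul_zero]
  have hHe := ev_zero_at hHmp.mero hHmp.pun hH0
  have hND : Nz (ρ D) := by
    intro hcon
    have h1 := cl_zero_of_ev (MP.of_mero (hρ1 D)).mero hcon
    rw [hρ2] at h1
    apply hp
    rw [← Polynomial.leadingCoeff_eq_zero, Polynomial.leadingCoeff, ← hD]
    exact Subtype.ext h1
  have hG : Gr a b := by
    refine gr_of_alg ρ (fun d => hρ1 d 0 (mem_ball_self one_pos)) hND a b ?_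
    rw [hH] at hHe
    exact hHe
  have hNb : Nz b := fun hcon => h0 (cl_zero_of_ev hb.mero hcon)
  have hMR := growth_mero ha.pun hb.pun hNb hG
  refine ⟨⟨cl a / cl b, closed_aux ha hb h0 hMR⟩, ?_⟩
  apply Subtype.ext
  exact hx.symm

/-- a function on the punctured disc which is algebraic over the meromorphic functions on the disc
is meromorphic at the origin -/
theorem mero_of_alg {R : ℂ → ℂ} (hR : AnalyticOnNhd ℂ R (PB 1)) (h : IsAlgebraic K₀ (cl R)) :
    MeromorphicAt R 0 := by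
  have h1 : IsAlgebraic K₀ (⟨cl R, mem_EE_of (MP.of_an hR)⟩ : EE) := by
    rw [← isAlgebraic_algebraMap_iff (algebraMap EE LL).injective]
    exact h
  obtain ⟨⟨x, g, hg, hgx⟩, hx⟩ := EE_closed _ h1
  have h2 : x = cl R := congrArg (algebraMap EE LL) hx
  have h3 : cl (fun w => R w + (-1) * g w) = 0 := by
    have h4 : cl (fun w => R w + (-1) * g w) = cl R + cl (fun w => (-1) * g w) := map_add cl _ _
    have h5 : cl (fun w => (-1) * g w) = cl (fun _ => -1) * cl g := map_mul cl _ _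
    have h6 : cl (fun _ => -1) = -1 := by
      have h7 : cl (-1) = -1 := by rw [map_neg, map_one]
      exact h7
    rw [h4, h5, h6, hgx, h2]
    ring
  have h4 : MP (fun w => R w + (-1) * g w) := (MP.of_an hR).add
    ((MP.of_mero (MeromorphicOn.const (-1))).mul (MP.of_mero hg))
  have h5 := ev_zero_at h4.mero h4.pun h3
  refine (hg 0 (mem_ball_self one_pos)).congr ?_
  filter_upwards [h5] with w hw
  linear_combination -hw

/-- the algebraic closure -/
noncomputable abbrev KK : IntermediateField K₀ LL := algebraicClosure K₀ LL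

instance : IsAlgClosed KK := (inferInstance : IsAlgClosure K₀ KK).isAlgClosed

end Run7.h493.PS
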