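import Pool.Agent.Run7.h493.PS.Core
import Pool.Agent.NH29.GN.Stb2
import Pool.Agent.NH29.GN.Fin3
import Pool.Agent.NH29.GN.Stc2
import Pool.Agent.NH29.GN.Int
import Pool.Agent.NH29.GN.Ncz
import Pool.Agent.NH29.GN.Hilb
import Pool.Agent.NH29.GN.Lin2

/-!
# General coefficients: multihomogeneous conditions
-/

set_option autoImplicit false

namespace Run7.h493.PS

open MvPolynomial
open Pool.Agent.NH29.GN (Idx Mon fv val NoZero Ind quo Num2)
open Pool.Agent.NH8.GD (Bad pv qn)

variable {k : Type} [Field k] {M q δ : ℕ} {d : Fin q → ℕ}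

/-- one-valued maps -/
theorem exists_noBad_one (k : Type) [Field k] [CharZero k] {M n q : ℕ}
    {V : Set (MvPolynomial (Fin (M + 1)) k)} (hV : ∀ H ∈ V, ∃ e, H.IsHomogeneous e)
    {ℓ : Fin (n + 1) → MvPolynomial (Fin (M + 1)) k} (hℓ : ∀ j, (ℓ j).IsHomogeneous 1)
    (hN : NoZero V ℓ) {d : Fin q → ℕ} (hd : ∀ i, 1 ≤ d i) (hq : n + 1 ≤ q)
    (hnum : Num2 n d ∅) :
    ∃ Φ : MvPolynomial (Idx M d) k, Φ ≠ 0 ∧ NoBad k M q 1 V d Φ := by
  by_contra hcon
  push Not at hcon
  obtain ⟨K', L', _, _, _, _, _, t, x, ht, hx⟩ := Pool.Agent.NH29.GN.stb2 k M q V d ∅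
    (fun Q hQ => by
      have h1 := hcon Q hQ
      unfold NoBad at h1
      push Not at h1
      obtain ⟨K, L, i1, i2, i3, i4, i5, t, h2, x, h3⟩ := h1
      refine ⟨K, L, i1, i2, i3, i4, i5, t, x 0, h2, h3.onV 0, fun c hc => by simp at hc,
        fun b _ => h3.off 0 b, h3.ne 0, fun c y hcy => h3.noncst fun l => ?_, fun b₀ _ => ?_⟩
      · have hl : l = 0 := Subsingleton.elim _ _
        exact ⟨c, y, by rw [hl]; exact hcy⟩
      · have h4 := h3.ind b₀
        have h5 : qn t x b₀ = quo ∅ t (x 0) b₀ := by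
          funext b
          unfold qn pv quo
          rw [if_neg (Finset.notMem_empty b), Fin.prod_univ_one, Fin.prod_univ_one]
        rwa [h5] at h4)
  exact Pool.Agent.NH29.GN.stc2 Pool.Agent.NH29.GN.der Pool.Agent.NH29.GN.alg
    (Pool.Agent.NH29.GN.int (Pool.Agent.NH29.GN.ncz Pool.Agent.NH29.GN.alg) Pool.Agent.NH29.GN.alg)
    Pool.Agent.NH29.GN.rel Pool.Agent.NH29.GN.lin2 Pool.Agent.NH29.GN.hilb
    k K' L' M n q V hV ℓ hℓ hN hq d hd ∅ hnum t ht x hx

/-! ### Scaling -/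

theorem fv_scale {K L : Type} [Field K] [Field L] [Algebra K L] (c : Fin q → K) (t : Idx M d → K)
    (x : Fin (M + 1) → L) (b : Fin q) :
    fv (fun s : Idx M d => c s.1 * t s) x b = algebraMap K L (c b) * fv t x b := by
  unfold fv
  rw [Finset.mul_sum]
  refine Finset.sum_congr rfl fun β _ => ?_
  rw [map_mul, mul_assoc]

theorem ind_scale {K L : Type} [Field K] [Field L] [Algebra K L] {v w : Fin q → L} (c : Fin q → K)
    (hc : ∀ b, c b ≠ 0) (hw : ∀ b, w b = algebraMap K L (c b) * v b) (hv : Ind K v) : Ind K w := by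
  intro S a hsum hne m hm
  have hmon : ∀ m : Fin q → ℤ, ∏ b, w b ^ m b = algebraMap K L (∏ b, c b ^ m b) * ∏ b, v b ^ m b := by
    intro m
    rw [map_prod, ← Finset.prod_mul_distrib]
    refine Finset.prod_congr rfl fun b _ => ?_
    rw [hw, mul_zpow, map_zpow₀]
  have hc0 : ∀ m : Fin q → ℤ, ∏ b, c b ^ m b ≠ 0 := fun m =>
    Finset.prod_ne_zero_iff.2 fun b _ => zpow_ne_zero _ (hc b)
  have h1 := hv S (fun m => a m * ∏ b, c b ^ m b) (by
    rw [← hsum]
    refine Finset.sum_congr rfl fun m _ => ?_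
    rw [hmon, map_mul, mul_assoc]) (by
    intro m hm m' hm' hmm' e he
    refine hne m hm m' hm' hmm' ((∏ b, c b ^ m b) * e * (∏ b, c b ^ m' b)⁻¹) ?_
    rw [hmon, hmon, he, map_mul, map_mul, map_inv₀]
    have h2 : algebraMap K L (∏ b, c b ^ m' b) ≠ 0 := by
      rw [Ne, map_eq_zero]
      exact hc0 m'
    field_simp)
  exact (mul_eq_zero.1 (h1 m hm)).resolve_right (hc0 m)

theorem bad_scale {K L : Type} [Field K] [Field L] [Algebra k K] [Algebra K L]
    {V : Set (MvPolynomial (Fin (M + 1)) k)} {t : Idx M d → K} {x : Fin δ → Fin (M + 1) → L}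
    (h : Bad k K L V t x) (c : Fin q → K) (hc : ∀ b, c b ≠ 0) :
    Bad k K L V (fun s : Idx M d => c s.1 * t s) x := by
  have hc' : ∀ b, algebraMap K L (c b) ≠ 0 := fun b => by
    rw [Ne, map_eq_zero]
    exact hc b
  refine ⟨h.onV, fun l b => ?_, h.ne, h.noncst, fun b₀ => ?_⟩
  · rw [fv_scale]
    exact mul_ne_zero (hc' b) (h.off l b)
  · refine ind_scale (fun b => (c b ^ δ) ^ d b₀ / (c b₀ ^ δ) ^ d b)
      (fun b => div_ne_zero (pow_ne_zero _ (pow_ne_zero _ (hc b)))
        (pow_ne_zero _ (pow_ne_zero _ (hc b₀)))) (fun b => ?_) (h.ind b₀)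
    have hpv : ∀ b, pv (fun s : Idx M d => c s.1 * t s) x b = algebraMap K L (c b) ^ δ * pv t x b := by
      intro b
      unfold pv
      rw [Finset.prod_congr rfl fun l _ => fv_scale c t (x l) b, Finset.prod_mul_distrib,
        Finset.prod_const, Finset.card_univ, Fintype.card_fin]
    unfold qn
    rw [hpv, hpv, mul_pow, mul_pow, map_div₀, map_pow, map_pow, map_pow, map_pow]
    exact mul_div_mul_comm _ _ _ _

/-- `Φ` is homogeneous of degree `m b` in the coefficients of the `b`-th form -/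
def MultiHom (Φ : MvPolynomial (Idx M d) k) (m : Fin q → ℕ) : Prop :=
  ∀ α ∈ Φ.support, ∀ b, ∑ β : Mon M (d b), α ⟨b, β⟩ = m b

theorem prod_idx {R : Type} [CommRing R] (u : Idx M d → R) :
    ∏ s : Idx M d, u s = ∏ b, ∏ β : Mon M (d b), u ⟨b, β⟩ := Fintype.prod_sigma u

theorem MultiHom.scale {K : Type} [CommRing K] [Algebra k K] {Φ : MvPolynomial (Idx M d) k}
    {m : Fin q → ℕ} (h : MultiHom Φ m) (c : Fin q → K) (t : Idx M d → K) :
    aeval (fun s : Idx M d => c s.1 * t s) Φ = (∏ b, c b ^ m b) * aeval t Φ := by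
  rw [aeval_def, aeval_def, eval₂_eq', eval₂_eq', Finset.mul_sum]
  refine Finset.sum_congr rfl fun α hα => ?_
  have h1 : ∏ s : Idx M d, (c s.1 * t s) ^ α s = (∏ b, c b ^ m b) * ∏ s : Idx M d, t s ^ α s := by
    simp only [mul_pow]
    rw [Finset.prod_mul_distrib, prod_idx (fun s => c s.1 ^ α s)]
    congr 1
    refine Finset.prod_congr rfl fun b _ => ?_
    show ∏ β : Mon M (d b), c b ^ α ⟨b, β⟩ = c b ^ m b
    rw [Finset.prod_pow_eq_pow_sum, h α hα b]
  rw [h1]
  ring

/-- a multihomogeneous component -/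
theorem exists_multiHom {V : Set (MvPolynomial (Fin (M + 1)) k)} {Φ : MvPolynomial (Idx M d) k}
    (hΦ : Φ ≠ 0) (hB : NoBad k M q δ V d Φ) :
    ∃ (Ψ : MvPolynomial (Idx M d) k) (m : Fin q → ℕ), Ψ ≠ 0 ∧ MultiHom Ψ m ∧
      NoBad k M q δ V d Ψ := by
  classical
  obtain ⟨α₀, hα₀⟩ := exists_coeff_ne_zero hΦ
  obtain ⟨dg, hdg⟩ : ∃ dg : (Idx M d →₀ ℕ) → Fin q →₀ ℕ, ∀ α b,
      dg α b = ∑ β : Mon M (d b), α ⟨b, β⟩ :=
    ⟨fun α => Finsupp.equivFunOnFinite.symm fun b => ∑ β : Mon M (d b), α ⟨b, β⟩, fun _ _ => rfl⟩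
  obtain ⟨Ψ, hΨ⟩ : ∃ Ψ : MvPolynomial (Idx M d) k, Ψ = ∑ α ∈ Φ.support.filter
      (fun α => dg α = dg α₀), monomial α (coeff α Φ) := ⟨_, rfl⟩
  have hcoeff : ∀ γ, coeff γ Ψ = if dg γ = dg α₀ then coeff γ Φ else 0 := by
    intro γ
    rw [hΨ, coeff_sum]
    simp only [coeff_monomial]
    rw [Finset.sum_ite_eq']
    by_cases h1 : dg γ = dg α₀
    · rw [if_pos h1]
      split_ifs with h2
      · rfl
      · by_contra h3
        exact h2 (Finset.mem_filter.2 ⟨mem_support_iff.2 (Ne.symm h3), h1⟩)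
    · rw [if_neg h1, if_neg]
      intro h2
      exact h1 (Finset.mem_filter.1 h2).2
  refine ⟨Ψ, dg α₀, ?_, ?_, ?_⟩
  · intro h0
    have h1 := hcoeff α₀
    rw [h0, coeff_zero, if_pos rfl] at h1
    exact hα₀ h1.symm
  · intro α hα b
    rw [mem_support_iff, hcoeff] at hα
    have h1 : dg α = dg α₀ := by
      by_contra h1
      rw [if_neg h1] at hα
      exact hα rfl
    rw [← hdg, h1]
  · intro K L _ _ _ _ _ t ht x hbad
    -- the polynomial in the scaling factors
    obtain ⟨P, hP⟩ : ∃ P : MvPolynomial (Fin q) K,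
        P = aeval (fun s : Idx M d => C (t s) * X s.1) Φ := ⟨_, rfl⟩
    have hmono : ∀ α : Idx M d →₀ ℕ, ∏ s : Idx M d, (C (t s) * X s.1 : MvPolynomial (Fin q) K) ^ α s =
        monomial (dg α) (∏ s, t s ^ α s) := by
      intro α
      simp only [mul_pow]
      rw [Finset.prod_mul_distrib, prod_idx (fun s => (X s.1 : MvPolynomial (Fin q) K) ^ α s)]
      have h1 : ∀ b, ∏ β : Mon M (d b), (X b : MvPolynomial (Fin q) K) ^ α ⟨b, β⟩ = X b ^ dg α b := by
        intro b
        rw [Finset.prod_pow_eq_pow_sum, hdg]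
      have h2 : ∏ s : Idx M d, (C (t s) : MvPolynomial (Fin q) K) ^ α s = C (∏ s, t s ^ α s) := by
        rw [map_prod]
        simp only [map_pow]
      rw [h2, Finset.prod_congr rfl fun b _ => h1 b, monomial_eq, Finsupp.prod_fintype]
      intro i
      exact pow_zero _
    have hcP : coeff (dg α₀) P = aeval t Ψ := by
      rw [hP, aeval_def, eval₂_eq', coeff_sum, hΨ, map_sum, Finset.sum_filter]
      refine Finset.sum_congr rfl fun α _ => ?_
      rw [hmono, IsScalarTower.algebraMap_apply k K (MvPolynomial (Fin q) K), algebraMap_eq,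
        coeff_C_mul, coeff_monomial]
      split_ifs with h1
      · rw [aeval_monomial, Finsupp.prod_fintype]
        intro i
        exact pow_zero _
      · rw [mul_zero]
    have hP0 : P * ∏ b, X b ≠ 0 := by
      refine mul_ne_zero ?_ (Finset.prod_ne_zero_iff.2 fun b _ => X_ne_zero b)
      intro h0
      rw [h0, coeff_zero] at hcP
      exact ht hcP.symm
    have hinf : Infinite K := IsAlgClosed.instInfinite
    obtain ⟨c, hc⟩ : ∃ c : Fin q → K, eval c (P * ∏ b, X b) ≠ 0 := by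
      by_contra hcon
      push Not at hcon
      exact hP0 (MvPolynomial.funext fun c => by rw [hcon c, map_zero])
    rw [map_mul, map_prod] at hc
    have hc1 : ∀ b, c b ≠ 0 := by
      intro b
      have := Finset.prod_ne_zero_iff.1 (right_ne_zero_of_mul hc) b (Finset.mem_univ b)
      rwa [eval_X] at this
    have hc2 : aeval (fun s : Idx M d => c s.1 * t s) Φ ≠ 0 := by
      have h1 := left_ne_zero_of_mul hc
      have h2 : eval c P = aeval (fun s : Idx M d => c s.1 * t s) Φ := by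
        rw [hP, aeval_def, eval₂_eq', map_sum, aeval_def, eval₂_eq']
        refine Finset.sum_congr rfl fun α _ => ?_
        rw [map_mul, map_prod, IsScalarTower.algebraMap_apply k K (MvPolynomial (Fin q) K),
          algebraMap_eq, eval_C]
        congr 1
        refine Finset.prod_congr rfl fun s _ => ?_
        rw [map_pow, map_mul, eval_C, eval_X, mul_comm (t s)]
      rwa [h2] at h1
    exact hB K L _ hc2 x (bad_scale hbad c hc1)

end Run7.h493.PS
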