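import Pool.Agent.Run7.h493.PS.Fld
import Pool.Agent.W603.BP.Rel

/-!
# Nowhere vanishing functions on the punctured disc
-/

set_option autoImplicit false

namespace Run7.h493.PS

open Filter Topology Metric Set
open Pool.Agent.W603.BP
open Pool.Agent.NH29.GN (Ind)

theorem an_unit {q : ℕ} {w : Fin q → ℂ → ℂ} (hw : ∀ b, AnalyticOnNhd ℂ (w b) (PB 1))
    (h0 : ∀ b, ∀ z ∈ PB 1, w b z ≠ 0) (e : Fin q → ℤ) :
    AnalyticOnNhd ℂ (fun z => ∏ b, w b z ^ e b) (PB 1) ∧ ∀ z ∈ PB 1, ∏ b, w b z ^ e b ≠ 0 := by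
  refine ⟨fun z hz => ?_, fun z hz => Finset.prod_ne_zero_iff.2 fun b _ => zpow_ne_zero _ (h0 b z hz)⟩
  exact Finset.analyticAt_fun_prod _ fun b _ => (hw b z hz).fun_zpow (h0 b z hz)

/-- the theorem of Borel on the punctured disc, with meromorphic coefficients -/
theorem borel {ι : Type} [Fintype ι] (U : ι → ℂ → ℂ) (hU : ∀ e, AnalyticOnNhd ℂ (U e) (PB 1))
    (hU0 : ∀ e, ∀ z ∈ PB 1, U e z ≠ 0)
    (hne : ∀ e e', e ≠ e' → cl (U e) / cl (U e') ∉ K₀) (c : ι → K₀)
    (hsum : ∑ e, (c e : LL) * cl (U e) = 0) : ∀ e, c e = 0 := by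
  classical
  have hP : ∀ e, Pun (U e) := fun e => on_pun one_pos (hU e)
  have hnz : ∀ e, ∀ᶠ w in 𝓝[≠] (0 : ℂ), U e w ≠ 0 := fun e => by
    filter_upwards [PB_mem one_pos] with w hw
    exact hU0 e w hw
  have hNz : ∀ e, Nz (U e) := by
    intro e h
    obtain ⟨w, h1, h2⟩ := (h.and (hnz e)).exists
    exact h2 h1
  have hcl0 : ∀ e, cl (U e) ≠ 0 := by
    intro e h
    exact hNz e (ev_zero_at (MP.of_an (hU e)).mero (hP e) h)
  choose ρ hρ1 hρ2 using fun e => (c e).2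
  obtain ⟨N, hN⟩ : ∃ N, N = (Fintype.card ι - 1) ^ 2 + 1 := ⟨_, rfl⟩
  have hN0 : 0 < N := by omega
  have hH : MP (fun w => ∑ e, ρ e w * U e w) :=
    MP.sum _ fun e _ => (MP.of_mero (hρ1 e)).mul (MP.of_an (hU e))
  have hH0 : cl (fun w => ∑ e, ρ e w * U e w) = 0 := by
    rw [cl_sum, ← hsum]
    refine Finset.sum_congr rfl fun e _ => ?_
    rw [cl_mul, hρ2]
  have hev := ev_zero_at hH.mero hH.pun hH0
  let col : ι → Set ι := fun a => {b | Gr (U b) (U a) ∧ Gr (U a) (U b)}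
  have hsymm : ∀ a b, Gr (U a) (U b) → Gr (U b) (U a) := fun a b h =>
    ((growth_mero (hP a) (hP b) (hNz b) h).symm (hNz a)).gr
  have hcol : ∀ a b, Nz (U a) → Nz (U b) → Gr (U a) (U b) → col a = col b := by
    intro a b _ _ hab
    have hba := hsymm a b hab
    ext x
    exact ⟨fun hx => ⟨hx.1.trans hab, hba.trans hx.2⟩, fun hx => ⟨hx.1.trans hba, hab.trans hx.2⟩⟩
  have hinj : ∀ a b, col a = col b → a = b := by
    intro a b hab
    by_contra hne'
    have h1 : a ∈ col a := ⟨Gr.refl _, Gr.refl _⟩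
    rw [hab] at h1
    exact hne a b hne' (closed_aux (MP.of_an (hU a)) (MP.of_an (hU b)) (hcl0 b)
      (growth_mero (hP a) (hP b) (hNz b) h1.1))
  have key := color_sums hN0 U hP (fun a => root (hP a) (hnz a) hN0) col hcol Finset.univ
    (by rw [Finset.card_univ]; omega) ρ (fun a => hρ1 a 0 (mem_ball_self one_pos)) hev
  intro e
  have h1 := key (col e)
  have h2 : Finset.univ.filter (fun a => col a = col e) = {e} := by
    ext a
    simp only [Finset.mem_filter, Finset.mem_univ, true_and, Finset.mem_singleton]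
    exact ⟨hinj a e, fun h => by rw [h]⟩
  rw [h2] at h1
  simp only [Finset.sum_singleton] at h1
  have h3 : ∀ᶠ w in 𝓝[≠] (0 : ℂ), ρ e w = 0 := by
    filter_upwards [h1, hnz e] with w h4 h5
    exact (mul_eq_zero.1 h4).resolve_right h5
  apply Subtype.ext
  rw [← hρ2]
  exact cl_zero_of_ev (MP.of_mero (hρ1 e)).mero h3

/-- nowhere vanishing functions on the punctured disc -/
theorem ind_units {q : ℕ} (w : Fin q → ℂ → ℂ) (hw : ∀ b, AnalyticOnNhd ℂ (w b) (PB 1))
    (h0 : ∀ b, ∀ z ∈ PB 1, w b z ≠ 0) (v : Fin q → LL) (hv : ∀ b, v b = cl (w b)) :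
    Ind KK v := by
  classical
  intro S c hsum hne
  have hmon : ∀ e : Fin q → ℤ, cl (fun z => ∏ b, w b z ^ e b) = ∏ b, v b ^ e b := by
    intro e
    rw [cl_prod]
    refine Finset.prod_congr rfl fun b _ => ?_
    rw [cl_zpow, hv]
  have hU := fun e => an_unit hw h0 e
  have hcl0 : ∀ e : Fin q → ℤ, cl (fun z => ∏ b, w b z ^ e b) ≠ 0 := by
    intro e h
    have h1 := ev_zero_at (MP.of_an (hU e).1).mero (MP.of_an (hU e).1).pun h
    obtain ⟨z, hz1, hz2⟩ := (h1.and (PB_mem one_pos)).exists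
    exact (hU e).2 z hz2 hz1
  have hB := borel (ι := {e // e ∈ S}) (fun e z => ∏ b, w b z ^ e.1 b) (fun e => (hU e.1).1)
    (fun e => (hU e.1).2) (by
      intro e e' hee' hK
      have hK' : cl (fun z => ∏ b, w b z ^ e.1 b) / cl (fun z => ∏ b, w b z ^ e'.1 b) ∈ KK := by
        have h1 := KK.algebraMap_mem ⟨_, hK⟩
        exact h1
      refine hne e.1 e.2 e'.1 e'.2 (fun h => hee' (Subtype.ext h)) ⟨_, hK'⟩ ?_
      rw [← hmon, ← hmon]
      show _ = (cl (fun z => ∏ b, w b z ^ e.1 b) / cl (fun z => ∏ b, w b z ^ e'.1 b)) *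
        cl (fun z => ∏ b, w b z ^ e'.1 b)
      rw [div_mul_cancel₀ _ (hcl0 e'.1)])
  have hld := ld (K := K₀) (E := EE) (L := LL) EE_closed (ι := {e // e ∈ S})
    (fun e => ⟨cl (fun z => ∏ b, w b z ^ e.1 b), mem_EE_of (MP.of_an (hU e.1).1)⟩)
    (fun c' hc' => hB c' (by
      have h1 := congrArg (algebraMap EE LL) hc'
      rw [map_sum, map_zero] at h1
      rw [← h1]
      refine Finset.sum_congr rfl fun e _ => ?_
      rw [map_mul]
      rfl))
    (fun e => (c e.1 : LL)) (fun e => mem_algebraicClosure_iff.1 (c e.1).2) (by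
      rw [← hsum, ← Finset.sum_coe_sort S]
      refine Finset.sum_congr rfl fun e _ => ?_
      rw [← hmon]
      rfl)
  intro e he
  exact Subtype.ext (hld ⟨e, he⟩)

end Run7.h493.PS
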