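import Pool.Agent.Run7.h493.PS.Ind
import Pool.Agent.NH8.GD.Stm

/-!
# Multivalued maps from the punctured disc to families of complements of hypersurfaces
-/

set_option autoImplicit false

namespace Run7.h493.PS

open Filter Topology Metric Set MvPolynomial
open Pool.Agent.W603.BP
open Pool.Agent.NH29.GN (Idx Mon fv val)

/-- Newton's identities: if the power sums are in a subalgebra, so are the elementary symmetric
functions. -/
theorem esymm_mem {R : Type} [CommRing R] [Algebra ℚ R] (A : Subalgebra ℚ R) {r : ℕ} (z : Fin r → R)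
    (h : ∀ j : ℕ, ∑ t, z t ^ j ∈ A) (k : ℕ) : aeval z (esymm (Fin r) ℚ k) ∈ A := by
  induction k using Nat.strong_induction_on with
  | _ k ih =>
    by_cases hk : k = 0
    · rw [hk, esymm_zero, map_one]
      exact one_mem A
    · have h1 := congrArg (aeval z) (mul_esymm_eq_sum (Fin r) ℚ k)
      rw [map_mul, map_natCast, map_mul, map_sum] at h1
      have h2 : aeval z (esymm (Fin r) ℚ k) = (k : ℚ)⁻¹ • ((k : R) * aeval z (esymm (Fin r) ℚ k)) := by
        rw [Algebra.smul_def, ← mul_assoc, ← map_natCast (algebraMap ℚ R) k, ← map_mul,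
          inv_mul_cancel₀ (by exact_mod_cast hk), map_one, one_mul]
      rw [h2, h1]
      refine A.smul_mem (mul_mem ?_ (sum_mem fun a ha => ?_)) _
      · rw [map_pow, map_neg, map_one]
        exact pow_mem (neg_mem (one_mem A)) _
      · rw [Finset.mem_filter] at ha
        rw [map_mul, map_mul, map_pow, map_neg, map_one]
        refine mul_mem (mul_mem (pow_mem (neg_mem (one_mem A)) _) (ih _ ha.2)) ?_
        rw [psum, map_sum]
        simp only [map_pow, aeval_X]
        exact h _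

/-- the product -/
theorem prod_mem_of_psum {R : Type} [CommRing R] [Algebra ℚ R] (A : Subalgebra ℚ R) {r : ℕ}
    (z : Fin r → R) (h : ∀ j : ℕ, ∑ t, z t ^ j ∈ A) : ∏ t, z t ∈ A := by
  have h1 := esymm_mem A z h r
  have h2 : aeval z (esymm (Fin r) ℚ r) = ∏ t, z t := by
    rw [esymm]
    have h3 : Finset.powersetCard r (Finset.univ : Finset (Fin r)) = {Finset.univ} := by
      have := Finset.powersetCard_self (Finset.univ : Finset (Fin r))
      rwa [Finset.card_univ, Fintype.card_fin] at this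
    rw [h3, Finset.sum_singleton, map_prod]
    simp only [aeval_X]
  rwa [h2] at h1

/-- the holomorphic functions on the punctured disc -/
def AN : Subalgebra ℂ (ℂ → ℂ) where
  carrier := {h | AnalyticOnNhd ℂ h (PB 1)}
  mul_mem' {_ _} ha hb := fun z hz => (ha z hz).mul (hb z hz)
  add_mem' {_ _} ha hb := fun z hz => (ha z hz).add (hb z hz)
  algebraMap_mem' _ := fun _ _ => analyticAt_const

theorem mem_AN {h : ℂ → ℂ} : h ∈ AN ↔ AnalyticOnNhd ℂ h (PB 1) := Iff.rfl

/-- the value at a point -/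
noncomputable def evz (z : ℂ) : AN →+* ℂ := (Pi.evalRingHom (fun _ : ℂ => ℂ) z).comp AN.subtype

theorem evz_apply (z : ℂ) (a : AN) : evz z a = a.1 z := rfl

/-- polynomials with holomorphic coefficients -/
def APoly (M : ℕ) : Subalgebra ℚ (MvPolynomial (Fin (M + 1)) (ℂ → ℂ)) where
  carrier := {P | ∀ α, coeff α P ∈ AN}
  mul_mem' {P Q} hP hQ := by
    intro α
    rw [coeff_mul]
    exact sum_mem fun x _ => mul_mem (hP _) (hQ _)
  add_mem' {P Q} hP hQ := by
    intro α
    rw [coeff_add]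
    exact add_mem (hP α) (hQ α)
  algebraMap_mem' r := by
    classical
    intro α
    rw [MvPolynomial.algebraMap_apply, coeff_C]
    split_ifs
    · intro z _
      exact analyticAt_const
    · exact zero_mem AN

theorem mem_APoly {M : ℕ} {P : MvPolynomial (Fin (M + 1)) (ℂ → ℂ)} :
    P ∈ APoly M ↔ ∀ α, coeff α P ∈ AN := Iff.rfl

theorem C_mem {M : ℕ} {a : ℂ → ℂ} (ha : a ∈ AN) :
    (C a : MvPolynomial (Fin (M + 1)) (ℂ → ℂ)) ∈ APoly M := by
  classical
  intro α
  rw [coeff_C]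
  split_ifs
  · exact ha
  · exact zero_mem AN

theorem X_mem {M : ℕ} (i : Fin (M + 1)) :
    (X i : MvPolynomial (Fin (M + 1)) (ℂ → ℂ)) ∈ APoly M := by
  classical
  intro α
  rw [coeff_X]
  split_ifs
  · exact one_mem AN
  · exact zero_mem AN

variable {M q δ : ℕ} {d : Fin q → ℕ}

/-- the product of the values of the forms -/
noncomputable def Dl (t : Idx M d → ℂ → ℂ) (f : ℂ → Fin δ → Fin (M + 1) → ℂ) (z : ℂ) (l : Fin δ) : ℂ :=
  ∏ b, fv (fun s => t s z) (f z l) b

/-- a holomorphic map from the punctured disc to the symmetric power of the complements of the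
forms with the coefficients `t` -/
structure Hol (t : Idx M d → ℂ → ℂ) (f : ℂ → Fin δ → Fin (M + 1) → ℂ) : Prop where
  an : ∀ s, AnalyticOnNhd ℂ (t s) (ball 0 1)
  ne : ∀ z ∈ PB 1, ∀ l, f z l ≠ 0
  off : ∀ z ∈ PB 1, ∀ l b, fv (fun s => t s z) (f z l) b ≠ 0
  hol : ∀ (k : ℕ) (α : Fin (M + 1) →₀ ℕ), α.degree = k * ∑ b, d b →
    AnalyticOnNhd ℂ (fun z => ∑ l, val (f z l) α / Dl t f z l ^ k) (PB 1)

variable {t : Idx M d → ℂ → ℂ} {f : ℂ → Fin δ → Fin (M + 1) → ℂ}

theorem Hol.Dl_ne (h : Hol t f) {z : ℂ} (hz : z ∈ PB 1) (l : Fin δ) : Dl t f z l ≠ 0 :=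
  Finset.prod_ne_zero_iff.2 fun b _ => h.off z hz l b

/-- the value of a polynomial -/
noncomputable def hv (t : Idx M d → ℂ → ℂ) (f : ℂ → Fin δ → Fin (M + 1) → ℂ) (k : ℕ)
    (G : MvPolynomial (Fin (M + 1)) AN) (l : Fin δ) (z : ℂ) : ℂ :=
  eval₂ (evz z) (f z l) G / Dl t f z l ^ k

theorem prod_val (x : Fin (M + 1) → ℂ) (α : Fin (M + 1) →₀ ℕ) : (∏ i, x i ^ α i) = val x α := rfl

theorem Hol.sum_mem (h : Hol t f) {k : ℕ} {G : MvPolynomial (Fin (M + 1)) AN}
    (hG : G.IsHomogeneous (k * ∑ b, d b)) : (fun z => ∑ l, hv t f k G l z) ∈ AN := by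
  classical
  have h1 : (fun z => ∑ l, hv t f k G l z) = fun z => ∑ α ∈ G.support,
      (coeff α G : AN).1 z * ∑ l, val (f z l) α / Dl t f z l ^ k := by
    funext z
    unfold hv
    have h2 : ∀ l, eval₂ (evz z) (f z l) G / Dl t f z l ^ k =
        ∑ α ∈ G.support, (coeff α G : AN).1 z * (val (f z l) α / Dl t f z l ^ k) := by
      intro l
      rw [eval₂_eq', Finset.sum_div]
      refine Finset.sum_congr rfl fun α _ => ?_
      rw [evz_apply, prod_val, mul_div_assoc]
    rw [Finset.sum_congr rfl fun l _ => h2 l, Finset.sum_comm]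
    exact Finset.sum_congr rfl fun α _ => (Finset.mul_sum _ _ _).symm
  rw [h1]
  intro z hz
  refine Finset.analyticAt_fun_sum _ fun α hα => ?_
  have h3 : α.degree = k * ∑ b, d b := by
    by_contra hne
    exact (mem_support_iff.1 hα) (hG.coeff_eq_zero hne)
  exact ((coeff α G : AN).2 z hz).fun_mul (h.hol k α h3 z hz)

theorem hv_pow (k : ℕ) (G : MvPolynomial (Fin (M + 1)) AN) (l : Fin δ) (z : ℂ) (j : ℕ) :
    hv t f k G l z ^ j = hv t f (j * k) (G ^ j) l z := by
  unfold hv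
  rw [div_pow, ← pow_mul, eval₂_pow, mul_comm k j]

theorem Hol.prod_mem (h : Hol t f) {k : ℕ} {G : MvPolynomial (Fin (M + 1)) AN}
    (hG : G.IsHomogeneous (k * ∑ b, d b)) : (fun z => ∏ l, hv t f k G l z) ∈ AN := by
  have h1 := prod_mem_of_psum (AN.restrictScalars ℚ) (fun l => hv t f k G l) (fun j => by
    have h2 : ∑ l, hv t f k G l ^ j = fun z => ∑ l, hv t f (j * k) (G ^ j) l z := by
      funext z
      rw [Finset.sum_apply]
      exact Finset.sum_congr rfl fun l _ => hv_pow k G l z j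
    rw [h2]
    refine h.sum_mem ?_
    have := hG.pow j
    rwa [mul_comm (k * _) j, ← mul_assoc] at this)
  have h3 : ∏ l, hv t f k G l = fun z => ∏ l, hv t f k G l z := by
    funext z
    rw [Finset.prod_apply]
  rw [← h3]
  exact h1

/-- the forms -/
noncomputable def Fb (h : ∀ s, AnalyticOnNhd ℂ (t s) (ball 0 1)) (b : Fin q) :
    MvPolynomial (Fin (M + 1)) AN :=
  ∑ β : Mon M (d b), monomial β.1 ⟨t ⟨b, β⟩, (h _).mono PB_sub_ball⟩

theorem Fb_hom (h : ∀ s, AnalyticOnNhd ℂ (t s) (ball 0 1)) (b : Fin q) :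
    (Fb h b).IsHomogeneous (d b) :=
  IsHomogeneous.sum _ _ _ fun β _ => isHomogeneous_monomial _ β.2

theorem eval_Fb (h : ∀ s, AnalyticOnNhd ℂ (t s) (ball 0 1)) (b : Fin q) (z : ℂ)
    (x : Fin (M + 1) → ℂ) : eval₂ (evz z) x (Fb h b) = fv (fun s => t s z) x b := by
  unfold Fb fv
  rw [eval₂_sum]
  refine Finset.sum_congr rfl fun β _ => ?_
  rw [eval₂_monomial, evz_apply]
  unfold val
  rw [Finsupp.prod_fintype]
  · rfl
  · intro i; exact pow_zero _

/-- the quotients of the norms of the values of the forms -/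
noncomputable def wf (t : Idx M d → ℂ → ℂ) (f : ℂ → Fin δ → Fin (M + 1) → ℂ) (b₀ b : Fin q)
    (z : ℂ) : ℂ :=
  ∏ l, (fv (fun s => t s z) (f z l) b ^ d b₀ / fv (fun s => t s z) (f z l) b₀ ^ d b)

theorem Hol.wf_an (h : Hol t f) (b₀ b : Fin q) : AnalyticOnNhd ℂ (wf t f b₀ b) (PB 1) := by
  classical
  obtain ⟨G, hG⟩ : ∃ G, G = Fb h.an b ^ d b₀ * ∏ c ∈ Finset.univ.erase b₀, Fb h.an c ^ d b := ⟨_, rfl⟩
  have hGh : G.IsHomogeneous (d b * ∑ c, d c) := by
    have h1 : (∏ c ∈ Finset.univ.erase b₀, Fb h.an c ^ d b).IsHomogeneous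
        (∑ c ∈ Finset.univ.erase b₀, d c * d b) :=
      IsHomogeneous.prod _ _ _ fun c _ => (Fb_hom h.an c).pow (d b)
    have h2 := ((Fb_hom h.an b).pow (d b₀)).mul h1
    rw [← hG] at h2
    have h3 : d b * d b₀ + ∑ c ∈ Finset.univ.erase b₀, d c * d b = d b * ∑ c, d c := by
      rw [← Finset.add_sum_erase Finset.univ d (Finset.mem_univ b₀), mul_add, ← Finset.sum_mul,
        mul_comm (∑ c ∈ Finset.univ.erase b₀, d c)]
    rwa [h3] at h2
  have h1 := h.prod_mem hGh
  have h2 : ∀ z ∈ PB 1, ∏ l, hv t f (d b) G l z = wf t f b₀ b z := by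
    intro z hz
    unfold wf
    refine Finset.prod_congr rfl fun l _ => ?_
    unfold hv
    rw [hG, eval₂_mul, eval₂_pow, eval₂_prod, eval_Fb]
    have h3 : ∀ c, eval₂ (evz z) (f z l) (Fb h.an c ^ d b) =
        fv (fun s => t s z) (f z l) c ^ d b := fun c => by rw [eval₂_pow, eval_Fb]
    rw [Finset.prod_congr rfl fun c _ => h3 c]
    unfold Dl
    rw [← Finset.mul_prod_erase Finset.univ _ (Finset.mem_univ b₀), mul_pow, ← Finset.prod_pow]
    have h4 : ∏ c ∈ Finset.univ.erase b₀, fv (fun s => t s z) (f z l) c ^ d b ≠ 0 :=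
      Finset.prod_ne_zero_iff.2 fun c _ => pow_ne_zero _ (h.off z hz l c)
    have h5 : fv (fun s => t s z) (f z l) b₀ ^ d b ≠ 0 := pow_ne_zero _ (h.off z hz l b₀)
    field_simp
  intro z hz
  refine (h1 z hz).congr ?_
  filter_upwards [(PB_open 1).mem_nhds hz] with y hy
  exact h2 y hy

theorem Hol.wf_ne (h : Hol t f) (b₀ b : Fin q) {z : ℂ} (hz : z ∈ PB 1) : wf t f b₀ b z ≠ 0 :=
  Finset.prod_ne_zero_iff.2 fun l _ =>
    div_ne_zero (pow_ne_zero _ (h.off z hz l b)) (pow_ne_zero _ (h.off z hz l b₀))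

end Run7.h493.PS
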